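import Pool.Agent.Helper17.RC.Del2
import Pool.Agent.Helper49.RC.StSharp

/-!
# Project RC, track B: module D2 of the skeleton (`StD2`), with the Bessel inequality of an alignment
-/

open MeasureTheory Set Filter Metric Topology

namespace Pool.Agent.Helper17.RC

open Helper49.LT hiding sg
open Helper87.RC
open Helper56.RC (fc)
open Pool.Agent.Helper20.RC

/-- `∫ ee (n t)` over a period -/
theorem int_ee_int (n : ℤ) : ∫ t in (0 : ℝ)..(2 * Real.pi), ee ((n : ℝ) * t) =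
    if n = 0 then (2 * Real.pi : ℂ) else 0 := by
  by_cases h : n = 0
  · subst h
    rw [if_pos rfl]
    simp only [Int.cast_zero, zero_mul, ee_zero]
    rw [intervalIntegral.integral_const, sub_zero, Complex.real_smul, mul_one]
    push_cast
    ring
  · rw [if_neg h]
    have hn : ((n : ℝ) : ℂ) * Complex.I ≠ 0 := by
      refine mul_ne_zero ?_ Complex.I_ne_zero
      exact_mod_cast h
    have e : ∀ t : ℝ, ee ((n : ℝ) * t) = Complex.exp ((((n : ℝ) : ℂ) * Complex.I) * (t : ℂ)) := by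
      intro t; unfold ee; congr 1; push_cast; ring
    simp_rw [e]
    rw [integral_exp_mul_complex hn]
    have h1 : Complex.exp ((((n : ℝ) : ℂ) * Complex.I) * ((2 * Real.pi : ℝ) : ℂ)) = 1 := by
      have : (((n : ℝ) : ℂ) * Complex.I) * ((2 * Real.pi : ℝ) : ℂ) = (n : ℂ) * (2 * Real.pi * Complex.I) := by
        push_cast; ring
      rw [this, Complex.exp_int_mul_two_pi_mul_I]
    rw [h1]
    simp

/-- trigonometric polynomial with the frequencies `lk k` -/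
noncomputable def TP (c : ℕ → ℂ) (N : ℕ) (s : ℝ) : ℂ := ∑ k ∈ Finset.range N, c k * ee (lk k * s)

theorem TP_meas (c : ℕ → ℂ) (N : ℕ) : Measurable (TP c N) := by
  unfold TP
  refine Finset.measurable_sum _ fun k _ => ?_
  exact (ee_meas (measurable_id.const_mul (lk k))).const_mul _

theorem TP_bd (c : ℕ → ℂ) (N : ℕ) (s : ℝ) : ‖TP c N s‖ ≤ ∑ k ∈ Finset.range N, ‖c k‖ := by
  unfold TP
  refine (norm_sum_le _ _).trans (le_of_eq (Finset.sum_congr rfl fun k _ => ?_))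
  rw [norm_mul, norm_ee, mul_one]

theorem TP_per (c : ℕ → ℂ) (N : ℕ) (s : ℝ) : TP c N (s + 2 * Real.pi) = TP c N s := by
  unfold TP
  refine Finset.sum_congr rfl fun k _ => ?_
  congr 1
  have h := ee_int (2 * (k : ℤ) + 2) s
  have e : ((2 * (k : ℤ) + 2 : ℤ) : ℝ) = lk k := by unfold lk; push_cast; ring
  rw [e] at h
  exact h

theorem TP_sq (c : ℕ → ℂ) (N : ℕ) : ∫ s in (0 : ℝ)..(2 * Real.pi), ‖TP c N s‖ ^ 2 =
    2 * Real.pi * ∑ k ∈ Finset.range N, ‖c k‖ ^ 2 := by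
  have hp := Real.pi_pos
  have key : ((∫ s in (0 : ℝ)..(2 * Real.pi), ‖TP c N s‖ ^ 2 : ℝ) : ℂ) =
      ((2 * Real.pi * ∑ k ∈ Finset.range N, ‖c k‖ ^ 2 : ℝ) : ℂ) := by
    rw [← intervalIntegral.integral_ofReal]
    have e : ∀ s : ℝ, ((‖TP c N s‖ ^ 2 : ℝ) : ℂ) = ∑ j ∈ Finset.range N, ∑ k ∈ Finset.range N,
        c j * (starRingEnd ℂ) (c k) * ee (((2 * (j : ℤ) - 2 * (k : ℤ) : ℤ) : ℝ) * s) := by
      intro s
      rw [← Complex.normSq_eq_norm_sq, ← Complex.mul_conj]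
      unfold TP
      rw [map_sum, Finset.sum_mul_sum]
      refine Finset.sum_congr rfl fun j _ => Finset.sum_congr rfl fun k _ => ?_
      rw [map_mul, ← ee_neg]
      have e2 : ee (((2 * (j : ℤ) - 2 * (k : ℤ) : ℤ) : ℝ) * s) = ee (lk j * s) * ee (-(lk k * s)) := by
        rw [← ee_add]; congr 1; unfold lk; push_cast; ring
      rw [e2]; ring
    simp_rw [e]
    rw [intervalIntegral.integral_finset_sum fun j _ => ?_]
    · rw [Complex.ofReal_mul, Complex.ofReal_sum, Finset.mul_sum]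
      refine Finset.sum_congr rfl fun j hj => ?_
      rw [intervalIntegral.integral_finset_sum fun k _ => ?_]
      · rw [Finset.sum_eq_single j]
        · rw [intervalIntegral.integral_const_mul, int_ee_int, if_pos (by ring), Complex.mul_conj,
            Complex.normSq_eq_norm_sq]
          push_cast
          ring
        · intro k _ hk
          rw [intervalIntegral.integral_const_mul, int_ee_int, if_neg (by omega), mul_zero]
        · intro h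
          exact absurd hj h
      · exact ((BM.eec _).cmul _).i _ _
    · refine Continuous.intervalIntegrable ?_ _ _
      refine continuous_finset_sum _ fun k _ => ?_
      exact continuous_const.mul (continuous_ee.comp (continuous_const.mul continuous_id))
  exact_mod_cast key

/-- coefficient of `f` with respect to an alignment -/
noncomputable def yk (f φ : ℝ → ℝ) (k : ℕ) : ℂ := (1 / (2 * Real.pi) : ℂ) *
  ∫ θ in (0 : ℝ)..(2 * Real.pi), (f θ : ℂ) * ee (-(lk k * φ θ))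

/-- BESSEL'S INEQUALITY FOR AN ALIGNMENT -/
theorem bessel {f φ : ℝ → ℝ} {D ρ : ℝ} (mf : Measurable f) (bf : ∀ t, |f t| ≤ D) (n : Measurable φ)
    (hd : DensI φ ρ) (N : ℕ) : ∑ k ∈ Finset.range N, ‖yk f φ k‖ ^ 2 ≤
      ρ * (1 / (2 * Real.pi) * ∫ θ in (0 : ℝ)..(2 * Real.pi), f θ ^ 2) := by
  have hp := Real.pi_pos
  have hρ : 1 ≤ ρ := by
    have h := hd (fun _ => 1) measurable_const (fun _ => zero_le_one) ⟨1, fun _ => le_refl _⟩ (fun _ => rfl)
    simp only [intervalIntegral.integral_const, sub_zero, smul_eq_mul, mul_one] at h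
    nlinarith
  set c := yk f φ with hc
  set S := TP c N with hS
  have hSd : ∫ θ in (0 : ℝ)..(2 * Real.pi), ‖S (φ θ)‖ ^ 2 ≤
      ρ * (2 * Real.pi * ∑ k ∈ Finset.range N, ‖c k‖ ^ 2) := by
    rw [← TP_sq]
    refine hd (fun s => ‖S s‖ ^ 2) ((TP_meas c N).norm.pow_const 2) (fun s => by positivity)
      ⟨(∑ k ∈ Finset.range N, ‖c k‖) ^ 2, fun s => ?_⟩ (fun s => by
        show ‖S (s + 2 * Real.pi)‖ ^ 2 = ‖S s‖ ^ 2
        rw [hS, TP_per])
    exact pow_le_pow_left₀ (norm_nonneg _) (TP_bd c N s) 2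
  -- the duality identity
  have hbm : ∀ k, BM (fun θ => (f θ : ℂ) * ee (lk k * φ θ)) D := fun k =>
    ⟨(Complex.measurable_ofReal.comp mf).mul (ee_meas (n.const_mul (lk k))), fun t => by
      rw [norm_mul, norm_ee, mul_one, Complex.norm_real, Real.norm_eq_abs]; exact bf t⟩
  have hcc : ∀ k, (starRingEnd ℂ) (c k) = (1 / (2 * Real.pi) : ℂ) *
      ∫ θ in (0 : ℝ)..(2 * Real.pi), (f θ : ℂ) * ee (lk k * φ θ) := by
    intro k
    rw [hc]
    unfold yk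
    rw [map_mul]
    have e0 : (starRingEnd ℂ) (1 / (2 * Real.pi) : ℂ) = (1 / (2 * Real.pi) : ℂ) := by
      simp only [map_mul, map_div₀, map_one, map_ofNat, Complex.conj_ofReal]
    rw [e0]
    congr 1
    have h1 : (starRingEnd ℂ) (∫ θ in (0 : ℝ)..(2 * Real.pi), (f θ : ℂ) * ee (-(lk k * φ θ))) =
        ∫ θ in (0 : ℝ)..(2 * Real.pi), (starRingEnd ℂ) ((f θ : ℂ) * ee (-(lk k * φ θ))) := by
      rw [intervalIntegral.integral_of_le (by positivity), intervalIntegral.integral_of_le (by positivity)]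
      exact integral_conj.symm
    rw [h1]
    refine intervalIntegral.integral_congr fun θ _ => ?_
    show (starRingEnd ℂ) ((f θ : ℂ) * ee (-(lk k * φ θ))) = _
    rw [map_mul, Complex.conj_ofReal, ee_neg, Complex.conj_conj]
  have hdual : ((∑ k ∈ Finset.range N, ‖c k‖ ^ 2 : ℝ) : ℂ) = (1 / (2 * Real.pi) : ℂ) *
      ∫ θ in (0 : ℝ)..(2 * Real.pi), (f θ : ℂ) * S (φ θ) := by
    rw [Complex.ofReal_sum]
    have e1 : ∀ k ∈ Finset.range N, ((‖c k‖ ^ 2 : ℝ) : ℂ) = (1 / (2 * Real.pi) : ℂ) *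
        ∫ θ in (0 : ℝ)..(2 * Real.pi), c k * ((f θ : ℂ) * ee (lk k * φ θ)) := by
      intro k _
      rw [← Complex.normSq_eq_norm_sq, ← Complex.mul_conj, hcc k, intervalIntegral.integral_const_mul]
      ring
    rw [Finset.sum_congr rfl e1, ← Finset.mul_sum, ← intervalIntegral.integral_finset_sum
      fun k _ => ((hbm k).cmul (c k)).i _ _]
    congr 1
    refine intervalIntegral.integral_congr fun θ _ => ?_
    show ∑ k ∈ Finset.range N, c k * ((f θ : ℂ) * ee (lk k * φ θ)) = (f θ : ℂ) * TP c N (φ θ)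
    unfold TP
    rw [Finset.mul_sum]
    exact Finset.sum_congr rfl fun k _ => by ring
  have mS : Measurable fun θ => S (φ θ) := (TP_meas c N).comp n
  have bS : ∀ θ, ‖S (φ θ)‖ ≤ ∑ k ∈ Finset.range N, ‖c k‖ := fun θ => TP_bd c N _
  have hB : BM (fun θ => (f θ : ℂ) * S (φ θ)) (D * ∑ k ∈ Finset.range N, ‖c k‖) :=
    BM.mul ⟨Complex.measurable_ofReal.comp mf, fun t => by
      rw [Complex.norm_real, Real.norm_eq_abs]; exact bf t⟩ ⟨mS, bS⟩
  have hre : ∑ k ∈ Finset.range N, ‖c k‖ ^ 2 = 1 / (2 * Real.pi) *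
      ∫ θ in (0 : ℝ)..(2 * Real.pi), ((f θ : ℂ) * S (φ θ)).re := by
    have h1 := congrArg Complex.re hdual
    have e0 : (1 / (2 * Real.pi) : ℂ) = ((1 / (2 * Real.pi) : ℝ) : ℂ) := by push_cast; rfl
    rw [Complex.ofReal_re, e0, Complex.re_ofReal_mul] at h1
    rw [h1]
    congr 1
    exact (Complex.reCLM.intervalIntegral_comp_comm (hB.i 0 (2 * Real.pi))).symm
  have hif : IntervalIntegrable (fun θ => f θ ^ 2) volume 0 (2 * Real.pi) := by
    refine intg_real (C := D ^ 2) (mf.pow_const 2) (fun t => ?_) _ _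
    rw [abs_of_nonneg (sq_nonneg _), ← sq_abs]
    exact pow_le_pow_left₀ (abs_nonneg _) (bf t) 2
  have hiS : IntervalIntegrable (fun θ => ‖S (φ θ)‖ ^ 2) volume 0 (2 * Real.pi) := by
    refine intg_real (C := (∑ k ∈ Finset.range N, ‖c k‖) ^ 2) (mS.norm.pow_const 2) (fun t => ?_) _ _
    rw [abs_of_nonneg (sq_nonneg _)]
    exact pow_le_pow_left₀ (norm_nonneg _) (bS t) 2
  have hmono : ∫ θ in (0 : ℝ)..(2 * Real.pi), ((f θ : ℂ) * S (φ θ)).re ≤
      ∫ θ in (0 : ℝ)..(2 * Real.pi), (ρ / 2 * f θ ^ 2 + 1 / (2 * ρ) * ‖S (φ θ)‖ ^ 2) := by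
    refine intervalIntegral.integral_mono_on (by positivity) ?_ ((hif.const_mul _).add (hiS.const_mul _)) ?_
    · exact intg_real (C := D * ∑ k ∈ Finset.range N, ‖c k‖) (Complex.measurable_re.comp hB.m)
        (fun t => (Complex.abs_re_le_norm _).trans (hB.b t)) _ _
    · intro θ _
      have h1 : ((f θ : ℂ) * S (φ θ)).re ≤ |f θ| * ‖S (φ θ)‖ := by
        refine (Complex.re_le_norm _).trans (le_of_eq ?_)
        rw [norm_mul, Complex.norm_real, Real.norm_eq_abs]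
      have h2 : |f θ| * ‖S (φ θ)‖ ≤ ρ / 2 * f θ ^ 2 + 1 / (2 * ρ) * ‖S (φ θ)‖ ^ 2 := by
        have h3 : 0 ≤ 1 / (2 * ρ) * (ρ * |f θ| - ‖S (φ θ)‖) ^ 2 := by positivity
        have h4 : 1 / (2 * ρ) * (ρ * |f θ| - ‖S (φ θ)‖) ^ 2 =
            ρ / 2 * |f θ| ^ 2 + 1 / (2 * ρ) * ‖S (φ θ)‖ ^ 2 - |f θ| * ‖S (φ θ)‖ := by
          field_simp
          ring
        rw [sq_abs] at h4
        linarith
      linarith
  rw [intervalIntegral.integral_add (hif.const_mul _) (hiS.const_mul _), intervalIntegral.integral_const_mul,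
    intervalIntegral.integral_const_mul] at hmono
  set T := ∑ k ∈ Finset.range N, ‖c k‖ ^ 2 with hT
  set If := ∫ θ in (0 : ℝ)..(2 * Real.pi), f θ ^ 2 with hIf
  have h5 : 1 / (2 * ρ) * ∫ θ in (0 : ℝ)..(2 * Real.pi), ‖S (φ θ)‖ ^ 2 ≤ Real.pi * T := by
    have h6 := mul_le_mul_of_nonneg_left hSd (by positivity : (0 : ℝ) ≤ 1 / (2 * ρ))
    have h7 : 1 / (2 * ρ) * (ρ * (2 * Real.pi * T)) = Real.pi * T := by field_simp
    linarith
  have h8 : T ≤ 1 / (2 * Real.pi) * (ρ / 2 * If + Real.pi * T) :=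
    hre.le.trans (mul_le_mul_of_nonneg_left (by linarith) (by positivity))
  have h9 : 1 / (2 * Real.pi) * (ρ / 2 * If + Real.pi * T) = 1 / 2 * (ρ * (1 / (2 * Real.pi) * If)) + 1 / 2 * T := by
    field_simp
  linarith

theorem bessel_summable {f φ : ℝ → ℝ} {D ρ : ℝ} (mf : Measurable f) (bf : ∀ t, |f t| ≤ D) (n : Measurable φ)
    (hd : DensI φ ρ) : Summable fun k => ‖yk f φ k‖ ^ 2 :=
  summable_of_sum_range_le (fun k => by positivity) (bessel mf bf n hd)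

/-- the aligned moment in terms of the coefficients -/
theorem eM_yk {g1 g2 : ℝ → ℂ} {D : ℝ} (h1 : BM g1 D) (h2 : BM g2 D) {φ1 φ2 : ℝ → ℝ} (n1 : Measurable φ1)
    (n2 : Measurable φ2) (k : ℕ) : eM g1 g2 φ1 φ2 (lk k) =
      (yk (fun θ => (g1 θ * ee (-φ1 θ)).re) φ1 k + yk (fun θ => (g2 θ * ee (-φ2 θ)).re) φ2 k)
      - Complex.I * (lk k : ℂ) *
        (yk (fun θ => (g1 θ * ee (-φ1 θ)).im) φ1 k + yk (fun θ => (g2 θ * ee (-φ2 θ)).im) φ2 k) := by
  have hg : ∀ {g : ℝ → ℂ} {φ : ℝ → ℝ}, BM g D → Measurable φ →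
      IntervalIntegrable (fun θ => ((g θ * ee (-φ θ)).re : ℂ) * ee (-(lk k * φ θ))) volume 0 (2 * Real.pi) ∧
      IntervalIntegrable (fun θ => ((g θ * ee (-φ θ)).im : ℂ) * ee (-(lk k * φ θ))) volume 0 (2 * Real.pi) := by
    intro g φ hg hφ
    have mg : Measurable fun θ => g θ * ee (-φ θ) := hg.m.mul (ee_meas hφ.neg)
    have bg : ∀ θ, ‖g θ * ee (-φ θ)‖ ≤ D := fun θ => by rw [norm_mul, norm_ee, mul_one]; exact hg.b θ
    exact ⟨ii_gen (Complex.measurable_re.comp mg) (fun t => (Complex.abs_re_le_norm _).trans (bg t)) hφ _,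
      ii_gen (Complex.measurable_im.comp mg) (fun t => (Complex.abs_im_le_norm _).trans (bg t)) hφ _⟩
  obtain ⟨x1, y1⟩ := hg h1 n1
  obtain ⟨x2, y2⟩ := hg h2 n2
  unfold eM yk
  rw [← mul_add, ← mul_add, ← intervalIntegral.integral_add x1 x2, ← intervalIntegral.integral_add y1 y2]
  have e : ∫ θ in (0 : ℝ)..(2 * Real.pi), (eD g1 φ1 (lk k) θ + eD g2 φ2 (lk k) θ) =
      (∫ θ in (0 : ℝ)..(2 * Real.pi), (((g1 θ * ee (-φ1 θ)).re : ℂ) * ee (-(lk k * φ1 θ))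
          + ((g2 θ * ee (-φ2 θ)).re : ℂ) * ee (-(lk k * φ2 θ))))
        - Complex.I * (lk k : ℂ) * ∫ θ in (0 : ℝ)..(2 * Real.pi),
          (((g1 θ * ee (-φ1 θ)).im : ℂ) * ee (-(lk k * φ1 θ))
          + ((g2 θ * ee (-φ2 θ)).im : ℂ) * ee (-(lk k * φ2 θ))) := by
    rw [← intervalIntegral.integral_const_mul, ← intervalIntegral.integral_sub (x1.add x2)
      ((y1.add y2).const_mul _)]
    refine intervalIntegral.integral_congr fun θ _ => ?_
    show eD g1 φ1 (lk k) θ + eD g2 φ2 (lk k) θ = _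
    unfold eD
    ring
  rw [e]
  ring

theorem sq_add_le (a b : ℝ) : (a + b) ^ 2 ≤ 2 * a ^ 2 + 2 * b ^ 2 := by nlinarith [sq_nonneg (a - b)]

/-- the aligned moments divided by `l² - 1` are square summable -/
theorem eM_summable {g1 g2 : ℝ → ℂ} {D : ℝ} (h1 : BM g1 D) (h2 : BM g2 D) {φ1 φ2 : ℝ → ℝ} (n1 : Measurable φ1)
    (n2 : Measurable φ2) {ρ : ℝ} (d1 : DensI φ1 ρ) (d2 : DensI φ2 ρ) :
    Summable fun k => ‖eM g1 g2 φ1 φ2 (lk k)‖ ^ 2 / (lk k ^ 2 - 1) := by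
  have mg : ∀ {g : ℝ → ℂ} {φ : ℝ → ℝ}, BM g D → Measurable φ → Measurable fun θ => g θ * ee (-φ θ) :=
    fun hg hφ => hg.m.mul (ee_meas hφ.neg)
  have bg : ∀ {g : ℝ → ℂ} {φ : ℝ → ℝ}, BM g D → ∀ θ, ‖g θ * ee (-φ θ)‖ ≤ D := by
    intro g φ hg θ; rw [norm_mul, norm_ee, mul_one]; exact hg.b θ
  have X1 := bessel_summable (f := fun θ => (g1 θ * ee (-φ1 θ)).re) (Complex.measurable_re.comp (mg h1 n1))
    (fun t => (Complex.abs_re_le_norm _).trans (bg h1 t)) n1 d1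
  have X2 := bessel_summable (f := fun θ => (g2 θ * ee (-φ2 θ)).re) (Complex.measurable_re.comp (mg h2 n2))
    (fun t => (Complex.abs_re_le_norm _).trans (bg h2 t)) n2 d2
  have Y1 := bessel_summable (f := fun θ => (g1 θ * ee (-φ1 θ)).im) (Complex.measurable_im.comp (mg h1 n1))
    (fun t => (Complex.abs_im_le_norm _).trans (bg h1 t)) n1 d1
  have Y2 := bessel_summable (f := fun θ => (g2 θ * ee (-φ2 θ)).im) (Complex.measurable_im.comp (mg h2 n2))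
    (fun t => (Complex.abs_im_le_norm _).trans (bg h2 t)) n2 d2
  refine Summable.of_nonneg_of_le (fun k => div_nonneg (by positivity) (lk_sq k).le) (fun k => ?_)
    ((((X1.add X2).add Y1).add Y2).mul_left 8)
  rw [div_le_iff₀ (lk_sq k), eM_yk h1 h2 n1 n2]
  set x1 := yk (fun θ => (g1 θ * ee (-φ1 θ)).re) φ1 k
  set x2 := yk (fun θ => (g2 θ * ee (-φ2 θ)).re) φ2 k
  set y1 := yk (fun θ => (g1 θ * ee (-φ1 θ)).im) φ1 k
  set y2 := yk (fun θ => (g2 θ * ee (-φ2 θ)).im) φ2 k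
  have hl := lk_ge k
  have a1 : ‖(x1 + x2) - Complex.I * (lk k : ℂ) * (y1 + y2)‖ ≤ ‖x1 + x2‖ + lk k * ‖y1 + y2‖ := by
    refine (norm_sub_le _ _).trans ?_
    rw [norm_mul, norm_mul, Complex.norm_I, one_mul, Complex.norm_real, Real.norm_eq_abs, abs_of_nonneg (by linarith)]
  have a2 : ‖x1 + x2‖ ^ 2 ≤ 2 * ‖x1‖ ^ 2 + 2 * ‖x2‖ ^ 2 :=
    (pow_le_pow_left₀ (norm_nonneg _) (norm_add_le _ _) 2).trans (sq_add_le _ _)
  have a3 : ‖y1 + y2‖ ^ 2 ≤ 2 * ‖y1‖ ^ 2 + 2 * ‖y2‖ ^ 2 :=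
    (pow_le_pow_left₀ (norm_nonneg _) (norm_add_le _ _) 2).trans (sq_add_le _ _)
  have a4 := (pow_le_pow_left₀ (norm_nonneg _) a1 2).trans (sq_add_le _ _)
  have hd3 : 3 ≤ lk k ^ 2 - 1 := by nlinarith
  have hd4 : 4 * lk k ^ 2 ≤ 8 * (lk k ^ 2 - 1) := by nlinarith
  have a5 : 4 * (‖x1‖ ^ 2 + ‖x2‖ ^ 2) ≤ 8 * (‖x1‖ ^ 2 + ‖x2‖ ^ 2) * (lk k ^ 2 - 1) := by
    have : 0 ≤ ‖x1‖ ^ 2 + ‖x2‖ ^ 2 := by positivity
    nlinarith [mul_le_mul_of_nonneg_left hd3 this]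
  have a6 : 4 * lk k ^ 2 * (‖y1‖ ^ 2 + ‖y2‖ ^ 2) ≤ 8 * (‖y1‖ ^ 2 + ‖y2‖ ^ 2) * (lk k ^ 2 - 1) := by
    have : 0 ≤ ‖y1‖ ^ 2 + ‖y2‖ ^ 2 := by positivity
    nlinarith [mul_le_mul_of_nonneg_left hd4 this]
  have a7 : 2 * (lk k * ‖y1 + y2‖) ^ 2 ≤ 4 * lk k ^ 2 * (‖y1‖ ^ 2 + ‖y2‖ ^ 2) := by
    have : 0 ≤ lk k ^ 2 := by positivity
    nlinarith
  nlinarith

theorem Hk_eq (α : ℝ → ℂ) (k : ℕ) : Helper49.Sharp.Hk α k = Hl α k := by
  unfold Helper49.Sharp.Hk Hl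
  have e1 : (2 * (k : ℤ) + 2) = 2 * ((k : ℤ) + 1) := by ring
  rw [e1]

/-- `(l² - 1) |H_l|²` is summable -/
theorem Hl_summable {α : ℝ → ℂ} {E : ℝ} (ha : BM α E) :
    Summable fun k => (lk k ^ 2 - 1) * ‖Hl α k‖ ^ 2 := by
  have h := (pars ha).summable
  have i1 : Function.Injective fun k : ℕ => 2 * ((k : ℤ) + 1) := by
    intro a b hab; simp only at hab; omega
  have i2 : Function.Injective fun k : ℕ => -(2 * ((k : ℤ) + 1)) := by
    intro a b hab; simp only at hab; omega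
  have s1 := h.comp_injective i1
  have s2 := h.comp_injective i2
  refine Summable.of_nonneg_of_le (fun k => mul_nonneg (lk_sq k).le (by positivity)) (fun k => ?_)
    ((s1.add s2).mul_left 2)
  show (lk k ^ 2 - 1) * ‖Hl α k‖ ^ 2 ≤ 2 * (‖fc α (2 * ((k : ℤ) + 1))‖ ^ 2 + ‖fc α (-(2 * ((k : ℤ) + 1)))‖ ^ 2)
  unfold Hl
  set a := fc α (2 * ((k : ℤ) + 1))
  set b := fc α (-(2 * ((k : ℤ) + 1)))
  have hl := lk_ge k
  have n1 : ‖(lk k : ℂ) + 1‖ = lk k + 1 := by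
    have : (lk k : ℂ) + 1 = ((lk k + 1 : ℝ) : ℂ) := by push_cast; ring
    rw [this, Complex.norm_real, Real.norm_eq_abs, abs_of_nonneg (by linarith)]
  have n2 : ‖(lk k : ℂ) - 1‖ = lk k - 1 := by
    have : (lk k : ℂ) - 1 = ((lk k - 1 : ℝ) : ℂ) := by push_cast; ring
    rw [this, Complex.norm_real, Real.norm_eq_abs, abs_of_nonneg (by linarith)]
  have a1 : ‖(a / ((lk k : ℂ) + 1) - (starRingEnd ℂ) b / ((lk k : ℂ) - 1)) / 2‖ ≤
      (‖a‖ / (lk k + 1) + ‖b‖ / (lk k - 1)) / 2 := by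
    rw [norm_div, Complex.norm_ofNat]
    refine div_le_div_of_nonneg_right ((norm_sub_le _ _).trans (le_of_eq ?_)) (by norm_num)
    rw [norm_div, norm_div, n1, n2, Complex.norm_conj]
  have a2 := pow_le_pow_left₀ (norm_nonneg _) a1 2
  have a3 := mul_le_mul_of_nonneg_left a2 (lk_sq k).le
  refine a3.trans ?_
  have hb1 : 0 < lk k + 1 := by linarith
  have hb2 : 0 < lk k - 1 := by linarith
  have e : (lk k ^ 2 - 1) * ((‖a‖ / (lk k + 1) + ‖b‖ / (lk k - 1)) / 2) ^ 2 =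
      (‖a‖ ^ 2 * ((lk k - 1) / (lk k + 1)) + 2 * (‖a‖ * ‖b‖) + ‖b‖ ^ 2 * ((lk k + 1) / (lk k - 1))) / 4 := by
    field_simp
    ring
  rw [e]
  have q1 : (lk k - 1) / (lk k + 1) ≤ 1 := by rw [div_le_one hb1]; linarith
  have q2 : (lk k + 1) / (lk k - 1) ≤ 3 := by rw [div_le_iff₀ hb2]; linarith
  have r1 := mul_le_mul_of_nonneg_left q1 (sq_nonneg ‖a‖)
  have r2 := mul_le_mul_of_nonneg_left q2 (sq_nonneg ‖b‖)
  nlinarith [sq_nonneg (‖a‖ - ‖b‖), sq_nonneg ‖a‖, sq_nonneg ‖b‖]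

/-- expansion of the square -/
theorem expand {ν d : ℝ} (hν : 0 < ν) (hd : 0 < d) (H e g : ℂ) :
    4 * (H * (starRingEnd ℂ) e).re - d / (2 * ν) * ‖2 * H + ν * (e - g) / (d : ℂ)‖ ^ 2 =
      2 * (H * (starRingEnd ℂ) e).re + 2 * (H * (starRingEnd ℂ) g).re - 2 / ν * d * ‖H‖ ^ 2
        - ν / 2 * ‖e - g‖ ^ 2 / d := by
  have e1 : (2 * H + ν * (e - g) / (d : ℂ) : ℂ) =
      ⟨2 * H.re + ν * (e.re - g.re) / d, 2 * H.im + ν * (e.im - g.im) / d⟩ := by
    apply Complex.ext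
    · simp only [Complex.add_re, Complex.mul_re, Complex.div_ofReal_re, Complex.ofReal_re, Complex.ofReal_im,
        Complex.sub_re, Complex.sub_im, Complex.re_ofNat, Complex.im_ofNat]
      ring
    · simp only [Complex.add_im, Complex.mul_im, Complex.div_ofReal_im, Complex.ofReal_re, Complex.ofReal_im,
        Complex.sub_re, Complex.sub_im, Complex.re_ofNat, Complex.im_ofNat]
      ring
  rw [e1, ← Complex.normSq_eq_norm_sq, ← Complex.normSq_eq_norm_sq, ← Complex.normSq_eq_norm_sq,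
    Complex.normSq_apply, Complex.normSq_apply, Complex.normSq_apply]
  simp only [Complex.mul_re, Complex.sub_re, Complex.sub_im, Complex.conj_re, Complex.conj_im]
  field_simp
  ring

/-- MODULE D2 -/
theorem hD2 : Helper49.Sharp.StD2 := by
  intro α f1 f2 φ1 φ2 E D ρ ν γ ha hpa h1 h2 n1 n2 d1 d2 hν hγ
  have hγs : Summable fun k => ‖γ k‖ := by
    refine summable_of_finite_support (hγ.subset fun k hk => ?_)
    rw [Function.mem_support] at hk ⊢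
    intro h0
    exact hk (by rw [h0, norm_zero])
  obtain ⟨r, hr, hN⟩ := D2 ha hpa h1 h2 n1 n2 d1 d2 hν γ (Γ := ∑' k, ‖γ k‖)
    (fun N => hγs.sum_le_tsum _ (fun k _ => norm_nonneg _))
  have sH := Hl_summable ha
  have sE := eM_summable h1 h2 n1 n2 d1 d2
  have sG : Summable fun k => ‖γ k‖ ^ 2 / (lk k ^ 2 - 1) := by
    refine summable_of_finite_support (hγ.subset fun k hk => ?_)
    rw [Function.mem_support] at hk ⊢
    intro h0
    exact hk (by rw [h0, norm_zero]; simp)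
  set e : ℕ → ℂ := fun k => eM f1 f2 φ1 φ2 (lk k) with he
  set u : ℕ → ℝ := fun k => 2 * (Hl α k * (starRingEnd ℂ) (e k)).re + 2 * (Hl α k * (starRingEnd ℂ) (γ k)).re
    - 2 / ν * (lk k ^ 2 - 1) * ‖Hl α k‖ ^ 2 - ν / 2 * ‖e k - γ k‖ ^ 2 / (lk k ^ 2 - 1) with hu
  have cross : ∀ (H x : ℂ) (k : ℕ), |2 * (H * (starRingEnd ℂ) x).re| ≤
      (lk k ^ 2 - 1) * ‖H‖ ^ 2 + ‖x‖ ^ 2 / (lk k ^ 2 - 1) := by
    intro H x k
    have hd := lk_sq k
    have a1 : |(H * (starRingEnd ℂ) x).re| ≤ ‖H‖ * ‖x‖ := by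
      refine (Complex.abs_re_le_norm _).trans (le_of_eq ?_)
      rw [norm_mul, Complex.norm_conj]
    rw [abs_mul, abs_of_pos (by norm_num : (0 : ℝ) < 2)]
    have a2 : 0 ≤ ((lk k ^ 2 - 1) * ‖H‖ - ‖x‖) ^ 2 / (lk k ^ 2 - 1) := div_nonneg (sq_nonneg _) hd.le
    have a3 : ((lk k ^ 2 - 1) * ‖H‖ - ‖x‖) ^ 2 / (lk k ^ 2 - 1) =
        (lk k ^ 2 - 1) * ‖H‖ ^ 2 + ‖x‖ ^ 2 / (lk k ^ 2 - 1) - 2 * (‖H‖ * ‖x‖) := by
      have h0 : lk k ^ 2 - 1 ≠ 0 := hd.ne'
      set d := lk k ^ 2 - 1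
      field_simp
      ring
    linarith
  have s1 : Summable fun k => 2 * (Hl α k * (starRingEnd ℂ) (e k)).re :=
    Summable.of_norm_bounded (sH.add sE) fun k => by
      rw [Real.norm_eq_abs]; exact cross _ _ k
  have s2 : Summable fun k => 2 * (Hl α k * (starRingEnd ℂ) (γ k)).re :=
    Summable.of_norm_bounded (sH.add sG) fun k => by
      rw [Real.norm_eq_abs]; exact cross _ _ k
  have s3 : Summable fun k => 2 / ν * (lk k ^ 2 - 1) * ‖Hl α k‖ ^ 2 := by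
    have := sH.mul_left (2 / ν)
    refine this.congr fun k => by ring
  have s4 : Summable fun k => ν / 2 * ‖e k - γ k‖ ^ 2 / (lk k ^ 2 - 1) := by
    refine Summable.of_nonneg_of_le (fun k => div_nonneg (by positivity) (lk_sq k).le) (fun k => ?_)
      ((sE.add sG).mul_left ν)
    have hd := lk_sq k
    have a1 : ‖e k - γ k‖ ^ 2 ≤ 2 * ‖e k‖ ^ 2 + 2 * ‖γ k‖ ^ 2 :=
      (pow_le_pow_left₀ (norm_nonneg _) (norm_sub_le _ _) 2).trans (sq_add_le _ _)
    have a2 : ν / 2 * ‖e k - γ k‖ ^ 2 / (lk k ^ 2 - 1) ≤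
        ν / 2 * (2 * ‖e k‖ ^ 2 + 2 * ‖γ k‖ ^ 2) / (lk k ^ 2 - 1) :=
      div_le_div_of_nonneg_right (mul_le_mul_of_nonneg_left a1 (by positivity)) hd.le
    refine a2.trans (le_of_eq ?_)
    show _ = ν * (‖e k‖ ^ 2 / (lk k ^ 2 - 1) + ‖γ k‖ ^ 2 / (lk k ^ 2 - 1))
    ring
  have su : Summable u := ((s1.add s2).sub s3).sub s4
  have hD : Helper49.Sharp.D2 ν (Helper49.Sharp.Hk α) (fun k => eM f1 f2 φ1 φ2 (lk k)) γ = ∑' k, u k := by
    unfold Helper49.Sharp.D2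
    refine tsum_congr fun k => ?_
    rw [Hk_eq]
  rw [hD]
  have hlim := su.hasSum.tendsto_sum_nat
  have hconv : Tendsto (fun N => 2 * (fc α 0).re * (sM f1 f2 0).re + ∑ k ∈ Finset.range N, u k
      - ν * ((sM f1 f2 0).re + 2 * ∑' k, ‖γ k‖) * ((sM f1 f2 0).re - (eM f1 f2 φ1 φ2 0).re)) atTop
      (𝓝 (2 * (fc α 0).re * (sM f1 f2 0).re + (∑' k, u k)
        - ν * ((sM f1 f2 0).re + 2 * ∑' k, ‖γ k‖) * ((sM f1 f2 0).re - (eM f1 f2 φ1 φ2 0).re))) :=
    (hlim.const_add _).sub_const _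
  have hconv2 : Tendsto (fun N => 2 * L2b α f1 f2 (al f1) (al f2) + r N) atTop
      (𝓝 (2 * L2b α f1 f2 (al f1) (al f2) + 0)) := hr.const_add _
  rw [add_zero] at hconv2
  refine le_of_tendsto_of_tendsto' hconv hconv2 fun N => ?_
  have h := hN N
  have e9 : ∑ k ∈ Finset.range N, u k = ∑ k ∈ Finset.range N,
      (4 * (Hl α k * (starRingEnd ℂ) (eM f1 f2 φ1 φ2 (lk k))).re
        - (lk k ^ 2 - 1) / (2 * ν) *
          ‖2 * Hl α k + ν * (eM f1 f2 φ1 φ2 (lk k) - γ k) / ((lk k ^ 2 - 1 : ℝ) : ℂ)‖ ^ 2) :=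
    Finset.sum_congr rfl fun k _ => (expand hν (lk_sq k) _ _ _).symm
  rw [e9]
  exact h

end Pool.Agent.Helper17.RC
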