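import Pool.Agent.Helper20.RC.SignF
import Pool.Agent.Helper20.RC.Link2F

/-!
# Project RC, track B, link 2: the form D2 of the rough coupling

For the true angles of the edges and any explicit alignments `φ₁, φ₂` with the density property the bilinear term
of the segments is bounded below by the aligned moments, complete squares and the excess.
-/

open MeasureTheory Set Filter Metric Topology

namespace Pool.Agent.Helper17.RC

open Helper49.LT Helper87.RC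
open Helper56.RC (fc)
open Pool.Agent.Helper20.RC

/-- the pointwise estimate of the moments -/
theorem pt_bound (n : ℕ) (u : ℝ) : ‖ee (-(((n : ℝ) + 1) * u)) - (Real.cos u : ℂ)
    + Complex.I * ((n : ℂ) + 1) * (Real.sin u : ℂ)‖ ≤ (((n : ℝ) + 1) ^ 2 - 1) * (1 - Real.cos u) := by
  induction n with
  | zero =>
    have e : ee (-((((0 : ℕ) : ℝ) + 1) * u)) - (Real.cos u : ℂ)
        + Complex.I * (((0 : ℕ) : ℂ) + 1) * (Real.sin u : ℂ) = 0 := by
      have e1 : -((((0 : ℕ) : ℝ) + 1) * u) = -u := by push_cast; ring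
      rw [e1, ee_eq, Real.cos_neg, Real.sin_neg]
      push_cast
      ring
    rw [e]
    simp
  | succ n ih =>
    set f := ee (-(((n : ℝ) + 1) * u)) - (Real.cos u : ℂ)
      + Complex.I * ((n : ℂ) + 1) * (Real.sin u : ℂ) with hf
    have h1 : ee (-((((n + 1 : ℕ) : ℝ) + 1) * u)) = ee (-u) * ee (-(((n : ℝ) + 1) * u)) := by
      rw [← ee_add]; congr 1; push_cast; ring
    have h2 : ee (-u) = (Real.cos u : ℂ) - (Real.sin u : ℂ) * Complex.I := by
      rw [ee_eq, Real.cos_neg, Real.sin_neg]; push_cast; ring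
    have h3 : ((Real.sin u : ℝ) : ℂ) ^ 2 = 1 - ((Real.cos u : ℝ) : ℂ) ^ 2 := by
      have := Real.sin_sq u
      exact_mod_cast this
    have hI : Complex.I ^ 2 = -1 := Complex.I_sq
    have e : ee (-((((n + 1 : ℕ) : ℝ) + 1) * u)) - (Real.cos u : ℂ)
        + Complex.I * (((n + 1 : ℕ) : ℂ) + 1) * (Real.sin u : ℂ) =
        ee (-u) * f + ((1 - Real.cos u : ℝ) : ℂ) * (-(((n : ℂ) + 2) * ee (-u)) - ((n : ℂ) + 1)) := by
      rw [h1, hf, h2]
      push_cast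
      set c : ℂ := Complex.cos (u : ℂ)
      set s : ℂ := Complex.sin (u : ℂ)
      have h3' : s ^ 2 = 1 - c ^ 2 := by
        have := h3
        push_cast at this
        exact this
      linear_combination (-((n : ℂ) + 1)) * h3' * 1 + ((n : ℂ) + 1) * s ^ 2 * hI
    rw [e]
    refine (norm_add_le _ _).trans ?_
    rw [norm_mul, norm_ee, one_mul, norm_mul, Complex.norm_real, Real.norm_eq_abs,
      abs_of_nonneg (by linarith [Real.cos_le_one u] : (0 : ℝ) ≤ 1 - Real.cos u)]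
    have h5 : ‖-(((n : ℂ) + 2) * ee (-u)) - ((n : ℂ) + 1)‖ ≤ ((n : ℝ) + 2) + ((n : ℝ) + 1) := by
      refine (norm_sub_le _ _).trans ?_
      rw [norm_neg, norm_mul, norm_ee, mul_one]
      have a1 : ‖(n : ℂ) + 2‖ = (n : ℝ) + 2 := by
        have : (n : ℂ) + 2 = (((n : ℝ) + 2 : ℝ) : ℂ) := by push_cast; ring
        rw [this, Complex.norm_real, Real.norm_eq_abs, abs_of_nonneg (by positivity)]
      have a2 : ‖(n : ℂ) + 1‖ = (n : ℝ) + 1 := by
        have : (n : ℂ) + 1 = (((n : ℝ) + 1 : ℝ) : ℂ) := by push_cast; ring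
        rw [this, Complex.norm_real, Real.norm_eq_abs, abs_of_nonneg (by positivity)]
      rw [a1, a2]
    have hc : (0 : ℝ) ≤ 1 - Real.cos u := by linarith [Real.cos_le_one u]
    have h6 := mul_le_mul_of_nonneg_left h5 hc
    push_cast
    nlinarith [ih, h6]

theorem pt_lk (k : ℕ) (u : ℝ) : ‖ee (-(lk k * u)) - (Real.cos u : ℂ)
    + Complex.I * (lk k : ℂ) * (Real.sin u : ℂ)‖ ≤ (lk k ^ 2 - 1) * (1 - Real.cos u) := by
  have h := pt_bound (2 * k + 1) u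
  have e : (((2 * k + 1 : ℕ) : ℝ) + 1) = lk k := by unfold lk; push_cast; ring
  have e2 : (((2 * k + 1 : ℕ) : ℂ) + 1) = (lk k : ℂ) := by rw [← e]; push_cast; ring
  rw [e, e2] at h
  exact h

/-- the pointwise difference of the true and the aligned density -/
theorem pt_dif (g : ℝ → ℂ) (φ : ℝ → ℝ) (k : ℕ) (θ : ℝ) :
    ‖(‖g θ‖ : ℂ) * ee (-(lk k * al g θ)) - eD g φ (lk k) θ‖ ≤
      (lk k ^ 2 - 1) * (‖g θ‖ - (g θ * ee (-φ θ)).re) := by
  set u := al g θ - φ θ with hu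
  have h1 : g θ * ee (-φ θ) = (‖g θ‖ : ℂ) * ee u := by
    have := al_ee g θ
    calc g θ * ee (-φ θ) = ((‖g θ‖ : ℂ) * ee (al g θ)) * ee (-φ θ) := by rw [← this]
      _ = (‖g θ‖ : ℂ) * (ee (al g θ) * ee (-φ θ)) := by ring
      _ = (‖g θ‖ : ℂ) * ee u := by rw [← ee_add, hu, sub_eq_add_neg]
  have h2 : (g θ * ee (-φ θ)).re = ‖g θ‖ * Real.cos u := by
    rw [h1, Complex.re_ofReal_mul, ee_re]
  have h3 : (g θ * ee (-φ θ)).im = ‖g θ‖ * Real.sin u := by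
    rw [h1, Complex.im_ofReal_mul, ee_im]
  have h4 : ee (-(lk k * al g θ)) = ee (-(lk k * u)) * ee (-(lk k * φ θ)) := by
    rw [← ee_add, hu]; congr 1; ring
  have e : (‖g θ‖ : ℂ) * ee (-(lk k * al g θ)) - eD g φ (lk k) θ =
      (‖g θ‖ : ℂ) * ((ee (-(lk k * u)) - (Real.cos u : ℂ) + Complex.I * (lk k : ℂ) * (Real.sin u : ℂ))
        * ee (-(lk k * φ θ))) := by
    unfold eD
    rw [h4, h2, h3]
    push_cast
    ring
  rw [e, norm_mul, norm_mul, norm_ee, mul_one, Complex.norm_real, norm_norm, h2]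
  have h5 := mul_le_mul_of_nonneg_left (pt_lk k u) (norm_nonneg (g θ))
  nlinarith [h5]

theorem bm_s {g : ℝ → ℂ} {D : ℝ} (h : BM g D) (l : ℝ) :
    BM (fun θ => (‖g θ‖ : ℂ) * ee (-(l * al g θ))) D :=
  ⟨(Complex.measurable_ofReal.comp h.m.norm).mul (ee_meas ((al_meas h.m).const_mul l).neg), fun t => by
    rw [norm_mul, norm_ee, mul_one, Complex.norm_real, norm_norm]; exact h.b t⟩

theorem bm_e {g : ℝ → ℂ} {D : ℝ} (h : BM g D) {φ : ℝ → ℝ} (n : Measurable φ) (l : ℝ) :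
    BM (eD g φ l) (D + |l| * D) := by
  have mg : Measurable fun θ => g θ * ee (-φ θ) := h.m.mul (ee_meas n.neg)
  have bg : ∀ θ, ‖g θ * ee (-φ θ)‖ ≤ D := fun θ => by rw [norm_mul, norm_ee, mul_one]; exact h.b θ
  refine ⟨?_, fun θ => ?_⟩
  · unfold eD
    exact (((Complex.measurable_ofReal.comp (Complex.measurable_re.comp mg)).sub
      ((Complex.measurable_ofReal.comp (Complex.measurable_im.comp mg)).const_mul _)).mul
      (ee_meas (n.const_mul l).neg))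
  · unfold eD
    rw [norm_mul, norm_ee, mul_one]
    refine (norm_sub_le _ _).trans (add_le_add ?_ ?_)
    · rw [Complex.norm_real, Real.norm_eq_abs]
      exact (Complex.abs_re_le_norm _).trans (bg θ)
    · rw [norm_mul, norm_mul, Complex.norm_I, one_mul, Complex.norm_real, Complex.norm_real, Real.norm_eq_abs,
        Real.norm_eq_abs]
      exact mul_le_mul_of_nonneg_left ((Complex.abs_im_le_norm _).trans (bg θ)) (abs_nonneg _)

/-- the excess `<∑ (|g_j| - Re g_j e^{-iφ_j})>` -/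
theorem excess {g1 g2 : ℝ → ℂ} {D : ℝ} (h1 : BM g1 D) (h2 : BM g2 D) {φ1 φ2 : ℝ → ℝ} (n1 : Measurable φ1)
    (n2 : Measurable φ2) : (sM g1 g2 0).re - (eM g1 g2 φ1 φ2 0).re = 1 / (2 * Real.pi) *
      ∫ θ in (0 : ℝ)..(2 * Real.pi), ((‖g1 θ‖ - (g1 θ * ee (-φ1 θ)).re) + (‖g2 θ‖ - (g2 θ * ee (-φ2 θ)).re)) := by
  have hp := Real.pi_pos
  have e0 : (1 / (2 * Real.pi) : ℂ) = ((1 / (2 * Real.pi) : ℝ) : ℂ) := by push_cast; rfl
  rw [← Complex.sub_re]
  unfold sM eM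
  rw [← mul_sub, ← intervalIntegral.integral_sub (((bm_s h1 0).i _ _).add ((bm_s h2 0).i _ _))
    (((bm_e h1 n1 0).i _ _).add ((bm_e h2 n2 0).i _ _)), e0, Complex.re_ofReal_mul]
  congr 1
  have hi : IntervalIntegrable (fun θ => ((‖g1 θ‖ : ℂ) * ee (-(0 * al g1 θ)) + (‖g2 θ‖ : ℂ) * ee (-(0 * al g2 θ)))
      - (eD g1 φ1 0 θ + eD g2 φ2 0 θ)) volume 0 (2 * Real.pi) :=
    (((bm_s h1 0).i _ _).add ((bm_s h2 0).i _ _)).sub (((bm_e h1 n1 0).i _ _).add ((bm_e h2 n2 0).i _ _))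
  have := Complex.reCLM.intervalIntegral_comp_comm hi
  refine this.symm.trans ?_
  refine intervalIntegral.integral_congr fun θ _ => ?_
  show (((‖g1 θ‖ : ℂ) * ee (-(0 * al g1 θ)) + (‖g2 θ‖ : ℂ) * ee (-(0 * al g2 θ)))
      - (eD g1 φ1 0 θ + eD g2 φ2 0 θ)).re = _
  unfold eD
  simp only [zero_mul, neg_zero, ee_zero, mul_one, Complex.ofReal_zero, mul_zero, sub_zero, Complex.sub_re,
    Complex.add_re, Complex.ofReal_re]
  ring

theorem excess_nonneg {g1 g2 : ℝ → ℂ} {D : ℝ} (h1 : BM g1 D) (h2 : BM g2 D) {φ1 φ2 : ℝ → ℝ}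
    (n1 : Measurable φ1) (n2 : Measurable φ2) : 0 ≤ (sM g1 g2 0).re - (eM g1 g2 φ1 φ2 0).re := by
  have hp := Real.pi_pos
  rw [excess h1 h2 n1 n2]
  refine mul_nonneg (by positivity) (intervalIntegral.integral_nonneg (by positivity) fun θ _ => ?_)
  have key : ∀ (z : ℂ) (x : ℝ), 0 ≤ ‖z‖ - (z * ee (-x)).re := by
    intro z x
    have := Complex.re_le_norm (z * ee (-x))
    rw [norm_mul, norm_ee, mul_one] at this
    linarith
  exact add_nonneg (key _ _) (key _ _)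

/-- `|s_l - e_l| ≤ (l² - 1) G'` -/
theorem dif_le {g1 g2 : ℝ → ℂ} {D : ℝ} (h1 : BM g1 D) (h2 : BM g2 D) {φ1 φ2 : ℝ → ℝ} (n1 : Measurable φ1)
    (n2 : Measurable φ2) (k : ℕ) : ‖sM g1 g2 (lk k) - eM g1 g2 φ1 φ2 (lk k)‖ ≤
      (lk k ^ 2 - 1) * ((sM g1 g2 0).re - (eM g1 g2 φ1 φ2 0).re) := by
  have hp := Real.pi_pos
  rw [excess h1 h2 n1 n2]
  unfold sM eM
  rw [← mul_sub, ← intervalIntegral.integral_sub (((bm_s h1 _).i _ _).add ((bm_s h2 _).i _ _))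
    (((bm_e h1 n1 _).i _ _).add ((bm_e h2 n2 _).i _ _)), norm_mul]
  have e0 : ‖(1 / (2 * Real.pi) : ℂ)‖ = 1 / (2 * Real.pi) := by
    have : (1 / (2 * Real.pi) : ℂ) = ((1 / (2 * Real.pi) : ℝ) : ℂ) := by push_cast; rfl
    rw [this, Complex.norm_real, Real.norm_eq_abs, abs_of_pos (by positivity)]
  rw [e0, ← mul_assoc, mul_comm (lk k ^ 2 - 1), mul_assoc]
  refine mul_le_mul_of_nonneg_left ?_ (by positivity)
  rw [← intervalIntegral.integral_const_mul]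
  have mreal : ∀ {g : ℝ → ℂ} {φ : ℝ → ℝ}, BM g D → Measurable φ →
      IntervalIntegrable (fun θ => ‖g θ‖ - (g θ * ee (-φ θ)).re) volume 0 (2 * Real.pi) := by
    intro g φ hg hφ
    refine intg_real (C := D + D) (hg.m.norm.sub (Complex.measurable_re.comp (hg.m.mul (ee_meas hφ.neg)))) ?_ _ _
    intro t
    refine (abs_sub _ _).trans (add_le_add ?_ ?_)
    · rw [abs_of_nonneg (norm_nonneg _)]; exact hg.b t
    · refine (Complex.abs_re_le_norm _).trans ?_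
      show ‖g t * ee (-φ t)‖ ≤ D
      rw [norm_mul, norm_ee, mul_one]; exact hg.b t
  refine intervalIntegral.norm_integral_le_of_norm_le (by positivity) ?_
    (((mreal h1 n1).add (mreal h2 n2)).const_mul _)
  refine Filter.Eventually.of_forall fun θ _ => ?_
  have a1 := pt_dif g1 φ1 k θ
  have a2 := pt_dif g2 φ2 k θ
  have e1 : ((‖g1 θ‖ : ℂ) * ee (-(lk k * al g1 θ)) + (‖g2 θ‖ : ℂ) * ee (-(lk k * al g2 θ)))
      - (eD g1 φ1 (lk k) θ + eD g2 φ2 (lk k) θ) =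
      ((‖g1 θ‖ : ℂ) * ee (-(lk k * al g1 θ)) - eD g1 φ1 (lk k) θ)
        + ((‖g2 θ‖ : ℂ) * ee (-(lk k * al g2 θ)) - eD g2 φ2 (lk k) θ) := by ring
  rw [e1]
  refine (norm_add_le _ _).trans ((add_le_add a1 a2).trans (le_of_eq (by ring)))

/-- the coefficient `H_l` of the support function of `α`, `l = 2k+2` -/
noncomputable def Hl (α : ℝ → ℂ) (k : ℕ) : ℂ :=
  (fc α (2 * ((k : ℤ) + 1)) / ((lk k : ℂ) + 1)
    - (starRingEnd ℂ) (fc α (-(2 * ((k : ℤ) + 1)))) / ((lk k : ℂ) - 1)) / 2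

theorem mom_true {g1 g2 : ℝ → ℂ} {D : ℝ} (h1 : BM g1 D) (h2 : BM g2 D) (j : ℤ) :
    mom g1 (al g1) (2 * j + 1) + mom g2 (al g2) (2 * j + 1) =
      (starRingEnd ℂ) (sM g1 g2 (2 * (j : ℝ))) := by
  have hp := Real.pi_pos
  have key : ∀ {g : ℝ → ℂ}, BM g D → mom g (al g) (2 * j + 1) = (1 / (2 * Real.pi) : ℂ) *
      ∫ θ in (0 : ℝ)..(2 * Real.pi), (starRingEnd ℂ) ((‖g θ‖ : ℂ) * ee (-(2 * (j : ℝ) * al g θ))) := by
    intro g hg
    unfold mom
    congr 1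
    refine intervalIntegral.integral_congr fun θ _ => ?_
    show ee (((2 * j + 1 : ℤ) : ℝ) * al g θ) * (starRingEnd ℂ) (g θ) = _
    have h := al_ee g θ
    have h3 : (starRingEnd ℂ) (g θ) = (‖g θ‖ : ℂ) * ee (-al g θ) := by
      conv_lhs => rw [h]
      rw [map_mul, Complex.conj_ofReal, ← ee_neg]
    rw [h3, map_mul, Complex.conj_ofReal, ← ee_neg, neg_neg]
    have h4 : ee (((2 * j + 1 : ℤ) : ℝ) * al g θ) * ((‖g θ‖ : ℂ) * ee (-al g θ)) =
        (‖g θ‖ : ℂ) * (ee (((2 * j + 1 : ℤ) : ℝ) * al g θ) * ee (-al g θ)) := by ring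
    rw [h4, ← ee_add]
    congr 2
    push_cast
    ring
  rw [key h1, key h2, ← mul_add]
  unfold sM
  rw [map_mul]
  have e0 : (starRingEnd ℂ) (1 / (2 * Real.pi) : ℂ) = (1 / (2 * Real.pi) : ℂ) := by
    simp only [map_mul, map_div₀, map_one, map_ofNat, Complex.conj_ofReal]
  rw [e0]
  congr 1
  have hc : ∀ F : ℝ → ℂ, (starRingEnd ℂ) (∫ θ in (0 : ℝ)..(2 * Real.pi), F θ) =
      ∫ θ in (0 : ℝ)..(2 * Real.pi), (starRingEnd ℂ) (F θ) := by
    intro F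
    rw [intervalIntegral.integral_of_le (by positivity), intervalIntegral.integral_of_le (by positivity)]
    exact integral_conj.symm
  rw [hc, ← intervalIntegral.integral_add ((bm_s h1 _).conj.i _ _) ((bm_s h2 _).conj.i _ _)]
  refine intervalIntegral.integral_congr fun θ _ => ?_
  simp only [map_add]

theorem sM_neg {g1 g2 : ℝ → ℂ} (l : ℝ) : sM g1 g2 (-l) = (starRingEnd ℂ) (sM g1 g2 l) := by
  have hp := Real.pi_pos
  unfold sM
  rw [map_mul]
  have e0 : (starRingEnd ℂ) (1 / (2 * Real.pi) : ℂ) = (1 / (2 * Real.pi) : ℂ) := by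
    simp only [map_mul, map_div₀, map_one, map_ofNat, Complex.conj_ofReal]
  rw [e0]
  congr 1
  have hc : ∀ F : ℝ → ℂ, (starRingEnd ℂ) (∫ θ in (0 : ℝ)..(2 * Real.pi), F θ) =
      ∫ θ in (0 : ℝ)..(2 * Real.pi), (starRingEnd ℂ) (F θ) := by
    intro F
    rw [intervalIntegral.integral_of_le (by positivity), intervalIntegral.integral_of_le (by positivity)]
    exact integral_conj.symm
  rw [hc]
  refine intervalIntegral.integral_congr fun θ _ => ?_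
  show _ = (starRingEnd ℂ) ((‖g1 θ‖ : ℂ) * ee (-(l * al g1 θ)) + (‖g2 θ‖ : ℂ) * ee (-(l * al g2 θ)))
  rw [map_add, map_mul, map_mul, Complex.conj_ofReal, Complex.conj_ofReal, ← ee_neg, ← ee_neg]
  show (‖g1 θ‖ : ℂ) * ee (-(-l * al g1 θ)) + (‖g2 θ‖ : ℂ) * ee (-(-l * al g2 θ)) = _
  rw [neg_mul, neg_mul]

theorem sM_zero_im (g1 g2 : ℝ → ℂ) : (sM g1 g2 0).im = 0 := by
  have h := sM_neg (g1 := g1) (g2 := g2) 0
  rw [neg_zero] at h
  have h2 := congrArg Complex.im h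
  rw [Complex.conj_im] at h2
  linarith

/-- the bilinear term with the true angles as a series of the true moments -/
theorem L2b_true {α g1 g2 : ℝ → ℂ} {E D : ℝ} (ha : BM α E) (hpa : ∀ t, α (t + Real.pi) = α t)
    (h1 : BM g1 D) (h2 : BM g2 D) :
    HasSum (fun k : ℕ => 4 * (Hl α k * (starRingEnd ℂ) (sM g1 g2 (lk k))).re)
      (2 * L2b α g1 g2 (al g1) (al g2) - 2 * (fc α 0).re * (sM g1 g2 0).re) := by
  have h := L2b_hasSum ha hpa h1 h2 (al_meas h1.m) (al_meas h2.m)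
  simp_rw [mom_true h1 h2] at h
  set f : ℤ → ℝ := fun j => (fc α (2 * j) / (2 * (j : ℂ) + 1) *
    (starRingEnd ℂ) (sM g1 g2 (2 * (j : ℝ)))).re with hf
  have h3 := (hasSum_nat_add_iff' 1).2 h.nat_add_neg
  have h4 := h3.mul_left 2
  have e0 : f 0 = (fc α 0).re * (sM g1 g2 0).re := by
    simp only [hf]
    rw [Int.cast_zero, Int.cast_zero, mul_zero, mul_zero, zero_add, div_one, mul_zero, Complex.mul_re,
      Complex.conj_re, Complex.conj_im, sM_zero_im]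
    ring
  have e1 : 2 * (L2b α g1 g2 (al g1) (al g2) + f 0 -
      ∑ i ∈ Finset.range 1, (f ((i : ℕ) : ℤ) + f (-((i : ℕ) : ℤ)))) =
      2 * L2b α g1 g2 (al g1) (al g2) - 2 * (fc α 0).re * (sM g1 g2 0).re := by
    rw [Finset.sum_range_one, Nat.cast_zero, neg_zero, e0]
    ring
  have e2 : (fun k : ℕ => 2 * (f (((k + 1 : ℕ)) : ℤ) + f (-(((k + 1 : ℕ)) : ℤ)))) =
      fun k : ℕ => 4 * (Hl α k * (starRingEnd ℂ) (sM g1 g2 (lk k))).re := by
    funext k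
    have hl : lk k = 2 * ((k : ℝ) + 1) := by unfold lk; ring
    have c1 : (2 : ℝ) * ((((k + 1 : ℕ) : ℤ)) : ℝ) = lk k := by rw [hl]; push_cast; ring
    have c2 : (2 : ℝ) * (((-((k + 1 : ℕ) : ℤ) : ℤ)) : ℝ) = -lk k := by rw [hl]; push_cast; ring
    have c3 : (2 : ℂ) * ((((k + 1 : ℕ) : ℤ)) : ℂ) = (lk k : ℂ) := by
      rw [hl]; push_cast; ring
    have c4 : (2 : ℂ) * (((-((k + 1 : ℕ) : ℤ) : ℤ)) : ℂ) = -(lk k : ℂ) := by
      rw [hl]; push_cast; ring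
    have c5 : (2 : ℤ) * ((k + 1 : ℕ) : ℤ) = 2 * ((k : ℤ) + 1) := by push_cast; ring
    have c6 : (2 : ℤ) * (-((k + 1 : ℕ) : ℤ)) = -(2 * ((k : ℤ) + 1)) := by push_cast; ring
    simp only [hf]
    rw [c1, c2, c3, c4, c5, c6, sM_neg, Complex.conj_conj]
    unfold Hl
    set S := sM g1 g2 (lk k)
    set a := fc α (2 * ((k : ℤ) + 1))
    set b := fc α (-(2 * ((k : ℤ) + 1)))
    have hl1 : (lk k : ℂ) - 1 ≠ 0 := by
      have : (0 : ℝ) < lk k - 1 := by linarith [lk_ge k]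
      have h9 : ((lk k - 1 : ℝ) : ℂ) ≠ 0 := by exact_mod_cast this.ne'
      push_cast at h9
      exact h9
    have hb : (b / (-(lk k : ℂ) + 1) * S).re =
        -((starRingEnd ℂ) b / ((lk k : ℂ) - 1) * (starRingEnd ℂ) S).re := by
      have e5 : (starRingEnd ℂ) b / ((lk k : ℂ) - 1) * (starRingEnd ℂ) S =
          (starRingEnd ℂ) (b / ((lk k : ℂ) - 1) * S) := by
        rw [map_mul, map_div₀, map_sub, Complex.conj_ofReal, map_one]
      rw [e5, Complex.conj_re]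
      have e6 : b / (-(lk k : ℂ) + 1) * S = -(b / ((lk k : ℂ) - 1) * S) := by
        have : -(lk k : ℂ) + 1 = -((lk k : ℂ) - 1) := by ring
        rw [this, div_neg]; ring
      rw [e6, Complex.neg_re]
    rw [hb]
    have e7 : (a / ((lk k : ℂ) + 1) - (starRingEnd ℂ) b / ((lk k : ℂ) - 1)) / 2 * (starRingEnd ℂ) S =
        ((1 / 2 : ℝ) : ℂ) * (a / ((lk k : ℂ) + 1) * (starRingEnd ℂ) S
          - (starRingEnd ℂ) b / ((lk k : ℂ) - 1) * (starRingEnd ℂ) S) := by push_cast; ring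
    rw [e7, Complex.re_ofReal_mul, Complex.sub_re]
    ring
  rw [e1] at h4
  rw [← e2]
  exact h4

/-- completion of the square for one frequency -/
theorem square {ν d : ℝ} (hν : 0 < ν) (hd : 0 < d) (H e s g : ℂ) {G : ℝ} (hG : ‖s - e‖ ≤ d * G) :
    4 * (H * (starRingEnd ℂ) e).re - d / (2 * ν) * ‖2 * H + ν * (e - g) / d‖ ^ 2 - 2 * ν * ‖g‖ * G ≤
      4 * (H * (starRingEnd ℂ) s).re + 2 * ν * (((s - e) * (starRingEnd ℂ) s).re / d) := by
  have hC : ‖2 * H + ν * (e - g) / d + ((2 * ν / d : ℝ) : ℂ) * (s - e)‖ ^ 2 ≥ 0 := by positivity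
  have hg : -(‖g‖ * ‖s - e‖) ≤ ((s - e) * (starRingEnd ℂ) g).re := by
    have := Complex.abs_re_le_norm ((s - e) * (starRingEnd ℂ) g)
    rw [norm_mul, Complex.norm_conj] at this
    have h2 := (abs_le.1 this).1
    nlinarith
  have h3 : ‖g‖ * ‖s - e‖ ≤ ‖g‖ * (d * G) := mul_le_mul_of_nonneg_left hG (norm_nonneg _)
  have h4 : ‖g‖ * ‖s - e‖ / d ≤ ‖g‖ * G := by
    rw [div_le_iff₀ hd]; nlinarith
  have id : 4 * (H * (starRingEnd ℂ) s).re + 2 * ν * (((s - e) * (starRingEnd ℂ) s).re / d) =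
      4 * (H * (starRingEnd ℂ) e).re - d / (2 * ν) * ‖2 * H + ν * (e - g) / d‖ ^ 2
        + d / (2 * ν) * ‖2 * H + ν * (e - g) / d + ((2 * ν / d : ℝ) : ℂ) * (s - e)‖ ^ 2
        + 2 * ν / d * ((s - e) * (starRingEnd ℂ) g).re := by
    have e1 : (2 * H + ν * (e - g) / d : ℂ) = ⟨2 * H.re + ν * (e.re - g.re) / d, 2 * H.im + ν * (e.im - g.im) / d⟩ := by
      apply Complex.ext
      · simp only [Complex.add_re, Complex.mul_re, Complex.div_ofReal_re, Complex.ofReal_re, Complex.ofReal_im,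
          Complex.sub_re, Complex.sub_im, Complex.re_ofNat, Complex.im_ofNat]
        ring
      · simp only [Complex.add_im, Complex.mul_im, Complex.div_ofReal_im, Complex.ofReal_re, Complex.ofReal_im,
          Complex.sub_re, Complex.sub_im, Complex.re_ofNat, Complex.im_ofNat]
        ring
    rw [e1, ← Complex.normSq_eq_norm_sq, ← Complex.normSq_eq_norm_sq, Complex.normSq_apply, Complex.normSq_apply]
    simp only [Complex.add_re, Complex.add_im, Complex.mul_re, Complex.mul_im, Complex.ofReal_re,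
      Complex.ofReal_im, Complex.sub_re, Complex.sub_im, Complex.conj_re, Complex.conj_im]
    field_simp
    ring
  rw [id]
  have h5 : 0 ≤ d / (2 * ν) * ‖2 * H + ν * (e - g) / d + ((2 * ν / d : ℝ) : ℂ) * (s - e)‖ ^ 2 := by positivity
  have h6 : -(2 * ν * ‖g‖ * G) ≤ 2 * ν / d * ((s - e) * (starRingEnd ℂ) g).re := by
    have h7 : 2 * ν / d * (-(‖g‖ * ‖s - e‖)) ≤ 2 * ν / d * ((s - e) * (starRingEnd ℂ) g).re :=
      mul_le_mul_of_nonneg_left hg (by positivity)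
    have h8 : 2 * ν / d * (-(‖g‖ * ‖s - e‖)) = -(2 * ν * (‖g‖ * ‖s - e‖ / d)) := by
      field_simp
    have h9 := mul_le_mul_of_nonneg_left h4 (by positivity : (0 : ℝ) ≤ 2 * ν)
    nlinarith
  linarith

/-- LINK 2, FORM D2. -/
theorem D2 {α g1 g2 : ℝ → ℂ} {E D : ℝ} (ha : BM α E) (hpa : ∀ t, α (t + Real.pi) = α t)
    (h1 : BM g1 D) (h2 : BM g2 D) {φ1 φ2 : ℝ → ℝ} (n1 : Measurable φ1) (n2 : Measurable φ2)
    {ρ : ℝ} (d1 : DensI φ1 ρ) (d2 : DensI φ2 ρ) {ν : ℝ} (hν : 0 < ν) (g : ℕ → ℂ) {Γ : ℝ}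
    (hg : ∀ N, ∑ k ∈ Finset.range N, ‖g k‖ ≤ Γ) :
    ∃ r : ℕ → ℝ, Tendsto r atTop (𝓝 0) ∧ ∀ N,
      2 * (fc α 0).re * (sM g1 g2 0).re
      + ∑ k ∈ Finset.range N, (4 * (Hl α k * (starRingEnd ℂ) (eM g1 g2 φ1 φ2 (lk k))).re
        - (lk k ^ 2 - 1) / (2 * ν) *
          ‖2 * Hl α k + ν * (eM g1 g2 φ1 φ2 (lk k) - g k) / ((lk k ^ 2 - 1 : ℝ) : ℂ)‖ ^ 2)
      - ν * ((sM g1 g2 0).re + 2 * Γ) * ((sM g1 g2 0).re - (eM g1 g2 φ1 φ2 0).re)
        ≤ 2 * L2b α g1 g2 (al g1) (al g2) + r N := by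
  obtain ⟨L, hL0, hL⟩ := sign_fam h1 h2 n1 n2 d1 d2
  have hK := (L2b_true ha hpa h1 h2).tendsto_sum_nat
  set s0 := (sM g1 g2 0).re with hs0
  set G := s0 - (eM g1 g2 φ1 φ2 0).re with hGdef
  have hG0 : 0 ≤ G := excess_nonneg h1 h2 n1 n2
  set KN := fun N : ℕ => ∑ k ∈ Finset.range N, 4 * (Hl α k * (starRingEnd ℂ) (sM g1 g2 (lk k))).re with hKN
  set SN := fun N : ℕ => s0 * G - 2 * ∑ k ∈ Finset.range N, ((sM g1 g2 (lk k) - eM g1 g2 φ1 φ2 (lk k))
        * (starRingEnd ℂ) (sM g1 g2 (lk k))).re / (lk k ^ 2 - 1) with hSN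
  set K := 2 * L2b α g1 g2 (al g1) (al g2) - 2 * (fc α 0).re * s0 with hKd
  refine ⟨fun N => (KN N - K) - ν * (SN N - L), ?_, fun N => ?_⟩
  · have t1 : Tendsto (fun N => KN N - K) atTop (𝓝 (K - K)) := hK.sub_const K
    have t2 : Tendsto (fun N => ν * (SN N - L)) atTop (𝓝 (ν * (L - L))) := (hL.sub_const L).const_mul ν
    have t3 := t1.sub t2
    simpa using t3
  · have hsum : ∑ k ∈ Finset.range N, (4 * (Hl α k * (starRingEnd ℂ) (eM g1 g2 φ1 φ2 (lk k))).re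
        - (lk k ^ 2 - 1) / (2 * ν) *
          ‖2 * Hl α k + ν * (eM g1 g2 φ1 φ2 (lk k) - g k) / ((lk k ^ 2 - 1 : ℝ) : ℂ)‖ ^ 2
          - 2 * ν * ‖g k‖ * G) ≤
        ∑ k ∈ Finset.range N, (4 * (Hl α k * (starRingEnd ℂ) (sM g1 g2 (lk k))).re
          + 2 * ν * (((sM g1 g2 (lk k) - eM g1 g2 φ1 φ2 (lk k)) * (starRingEnd ℂ) (sM g1 g2 (lk k))).re
            / (lk k ^ 2 - 1))) :=
      Finset.sum_le_sum fun k _ => square hν (lk_sq k) _ _ _ _ (dif_le h1 h2 n1 n2 k)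
    rw [Finset.sum_sub_distrib, Finset.sum_add_distrib, ← Finset.mul_sum (Finset.range N)
      (fun k => ((sM g1 g2 (lk k) - eM g1 g2 φ1 φ2 (lk k)) * (starRingEnd ℂ) (sM g1 g2 (lk k))).re
            / (lk k ^ 2 - 1)) (2 * ν)] at hsum
    have e1 : ∑ k ∈ Finset.range N, 2 * ν * ‖g k‖ * G = 2 * ν * G * ∑ k ∈ Finset.range N, ‖g k‖ := by
      rw [Finset.mul_sum]; exact Finset.sum_congr rfl fun k _ => by ring
    rw [e1] at hsum
    have h9 := mul_le_mul_of_nonneg_left (hg N) (by positivity : (0 : ℝ) ≤ 2 * ν * G)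
    have hLn : 0 ≤ ν * L := mul_nonneg hν.le hL0
    show _ ≤ 2 * L2b α g1 g2 (al g1) (al g2) + ((KN N - K) - ν * (SN N - L))
    simp only [hKN, hSN, hKd]
    nlinarith [hsum, h9, hLn]

end Pool.Agent.Helper17.RC
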