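import Pool.Agent.Helper20.RC.SignF

/-!
# Project RC, track B: the density property of an increasing alignment
-/

open MeasureTheory Set Filter Metric Topology

namespace Pool.Agent.Helper17.RC

open Helper49.LT Helper87.RC
open Pool.Agent.Helper20.RC

/-- change of variables -/
theorem cov {φ φ' : ℝ → ℝ} (hd : ∀ x, HasDerivAt φ (φ' x) x) (hpos : ∀ x, 0 < φ' x)
    (hp : ∀ x, φ (x + 2 * Real.pi) = φ x + 2 * Real.pi) {F : ℝ → ℝ} (hF : ∀ x, F (x + 2 * Real.pi) = F x) :
    ∫ θ in (0 : ℝ)..(2 * Real.pi), φ' θ * F (φ θ) = ∫ x in (0 : ℝ)..(2 * Real.pi), F x := by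
  have h2 : (0 : ℝ) ≤ 2 * Real.pi := by positivity
  have hmono : StrictMono φ := strictMono_of_hasDerivAt_pos hd hpos
  have hc : Continuous φ := continuous_iff_continuousAt.2 fun x => (hd x).continuousAt
  have himg : φ '' Ioc 0 (2 * Real.pi) = Ioc (φ 0) (φ (2 * Real.pi)) := by
    apply Set.Subset.antisymm
    · rintro _ ⟨x, hx, rfl⟩
      exact ⟨hmono hx.1, hmono.monotone hx.2⟩
    · intro y hy
      obtain ⟨x, hx, rfl⟩ := intermediate_value_Icc h2 hc.continuousOn ⟨hy.1.le, hy.2⟩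
      refine ⟨x, ⟨?_, hx.2⟩, rfl⟩
      exact hmono.lt_iff_lt.1 hy.1
  have h := integral_image_eq_integral_abs_deriv_smul (measurableSet_Ioc (a := (0 : ℝ)) (b := 2 * Real.pi))
    (fun x _ => (hd x).hasDerivWithinAt) hmono.injective.injOn F
  rw [himg] at h
  have e1 : ∫ x in Ioc (φ 0) (φ (2 * Real.pi)), F x = ∫ x in (0 : ℝ)..(2 * Real.pi), F x := by
    have hle : φ 0 ≤ φ (2 * Real.pi) := hmono.monotone h2
    rw [← intervalIntegral.integral_of_le hle]
    have hq := hp 0
    rw [zero_add] at hq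
    rw [hq]
    have hper : Function.Periodic F (2 * Real.pi) := hF
    have := hper.intervalIntegral_add_eq (φ 0) 0
    rw [zero_add] at this
    exact this
  rw [e1] at h
  rw [h, intervalIntegral.integral_of_le h2]
  refine setIntegral_congr_fun measurableSet_Ioc fun x _ => ?_
  show φ' x * F (φ x) = |φ' x| • F (φ x)
  rw [abs_of_pos (hpos x), smul_eq_mul]

/-- THE DENSITY PROPERTY of an alignment with slope at least `σ` -/
theorem densI_of_deriv {φ φ' : ℝ → ℝ} (hd : ∀ x, HasDerivAt φ (φ' x) x) (hc' : Continuous φ') {σ : ℝ} (hσ : 0 < σ)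
    (hs : ∀ x, σ ≤ φ' x) (hp : ∀ x, φ (x + 2 * Real.pi) = φ x + 2 * Real.pi) : DensI φ (1 / σ) := by
  intro F mF pF bF perF
  obtain ⟨C, hC⟩ := bF
  have h2 : (0 : ℝ) ≤ 2 * Real.pi := by positivity
  have hc : Continuous φ := continuous_iff_continuousAt.2 fun x => (hd x).continuousAt
  rw [← cov hd (fun x => hσ.trans_le (hs x)) hp perF, ← intervalIntegral.integral_const_mul]
  have hFi : IntervalIntegrable (fun θ => F (φ θ)) volume 0 (2 * Real.pi) := by
    refine intg_real (C := C) (mF.comp hc.measurable) (fun t => ?_) _ _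
    show |F (φ t)| ≤ C
    rw [abs_of_nonneg (pF _)]; exact hC _
  have hi : IntervalIntegrable (fun θ => 1 / σ * (φ' θ * F (φ θ))) volume 0 (2 * Real.pi) :=
    (hFi.continuousOn_mul hc'.continuousOn).const_mul _
  refine intervalIntegral.integral_mono_on h2 hFi hi fun θ _ => ?_
  have h1 : 1 ≤ 1 / σ * φ' θ := by
    rw [one_div, inv_mul_eq_div, one_le_div hσ]; exact hs θ
  have h3 := mul_le_mul_of_nonneg_right h1 (pF (φ θ))
  nlinarith

/-- the alignment `θ + arg (v θ)`, `v` differentiable with values off the negative axis -/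
theorem densI_arg {v v' : ℝ → ℂ} (hv : ∀ x, HasDerivAt v (v' x) x) (hcv : Continuous v')
    (hr : ∀ x, v x ∈ Complex.slitPlane) (hper : ∀ x, v (x + 2 * Real.pi) = v x) {σ : ℝ} (hσ : 0 < σ)
    (hs : ∀ x, σ ≤ 1 + (v' x / v x).im) : DensI (fun θ => θ + (v θ).arg) (1 / σ) := by
  have hcont : Continuous v := continuous_iff_continuousAt.2 fun x => (hv x).continuousAt
  have hne : ∀ x, v x ≠ 0 := fun x => Complex.slitPlane_ne_zero (hr x)
  have hlog : ∀ x, HasDerivAt (fun θ : ℝ => Complex.log (v θ)) (v' x / v x) x := fun x =>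
    (hv x).clog_real (hr x)
  have hd : ∀ x, HasDerivAt (fun θ : ℝ => θ + (v θ).arg) (1 + (v' x / v x).im) x := by
    intro x
    have h1 : HasDerivAt (fun θ : ℝ => (Complex.log (v θ)).im) (v' x / v x).im x :=
      Complex.imCLM.hasFDerivAt.comp_hasDerivAt x (hlog x)
    have h3 : (fun θ : ℝ => θ + (v θ).arg) = fun θ : ℝ => θ + (Complex.log (v θ)).im := by
      funext θ; rw [Complex.log_im]
    rw [h3]
    exact (hasDerivAt_id x).add h1
  refine densI_of_deriv hd ?_ hσ hs fun x => ?_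
  · exact continuous_const.add (Complex.continuous_im.comp (hcv.div hcont hne))
  · show x + 2 * Real.pi + (v (x + 2 * Real.pi)).arg = x + (v x).arg + 2 * Real.pi
    rw [hper]; ring

end Pool.Agent.Helper17.RC
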