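import Pool.Agent.Helper17.RC.M_D2
import Pool.Agent.Helper17.RC.Dens

/-!
# Project RC, track B: the tail of the rows of (D2)

`bessel2`: Bessel inequality with the sharp constant for two real families along two alignments, with a pointwise
density weight (`DensW`; `densW_slope`: the weights `2 / φ'`; `densW_const`: constants).
`eM_tail`: the rows `k ∈ S`, `K ≤ k`, of the aligned moments. `D2_sq`: the series (D2) with `γ = 0` is minus a sum of
squares. `D2_tail`: lower bound of (D2) by finitely many rows and pointwise means.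
-/

open MeasureTheory Set Filter Metric Topology

namespace Pool.Agent.Helper17.RC

open Helper49.LT hiding sg
open Helper87.RC
open Helper56.RC (fc)
open Pool.Agent.Helper20.RC

/-- the density property of two alignments with pointwise weights, for functions of period `π` -/
def DensW (φ1 φ2 D1 D2 : ℝ → ℝ) : Prop := ∀ F : ℝ → ℝ, Measurable F → (∀ x, 0 ≤ F x) → (∃ C, ∀ x, F x ≤ C) →
  (∀ x, F (x + Real.pi) = F x) →
  ∫ θ in (0 : ℝ)..(2 * Real.pi), (F (φ1 θ) / D1 θ + F (φ2 θ) / D2 θ) ≤ ∫ x in (0 : ℝ)..(2 * Real.pi), F x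

theorem int_re {f : ℝ → ℂ} {D : ℝ} (h : BM f D) :
    ∫ θ in (0 : ℝ)..(2 * Real.pi), (f θ).re = (∫ θ in (0 : ℝ)..(2 * Real.pi), f θ).re :=
  Complex.reCLM.intervalIntegral_comp_comm (h.i 0 (2 * Real.pi))

theorem TP_BM (c : ℕ → ℂ) (N : ℕ) : BM (TP c N) (∑ k ∈ Finset.range N, ‖c k‖) := ⟨TP_meas c N, TP_bd c N⟩

theorem TP_sqint (c : ℕ → ℂ) (N : ℕ) : ∫ s in (0 : ℝ)..(2 * Real.pi), TP c N s * TP c N s = 0 := by
  have e : ∀ s : ℝ, TP c N s * TP c N s = ∑ j ∈ Finset.range N, ∑ k ∈ Finset.range N,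
      c j * c k * ee (((2 * (j : ℤ) + 2 * (k : ℤ) + 4 : ℤ) : ℝ) * s) := by
    intro s
    unfold TP
    rw [Finset.sum_mul_sum]
    refine Finset.sum_congr rfl fun j _ => Finset.sum_congr rfl fun k _ => ?_
    have e2 : ee (((2 * (j : ℤ) + 2 * (k : ℤ) + 4 : ℤ) : ℝ) * s) = ee (lk j * s) * ee (lk k * s) := by
      rw [← ee_add]; congr 1; unfold lk; push_cast; ring
    rw [e2]; ring
  simp_rw [e]
  rw [intervalIntegral.integral_finsetSum fun j _ => ?_]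
  · refine Finset.sum_eq_zero fun j _ => ?_
    rw [intervalIntegral.integral_finsetSum fun k _ => ((BM.eec _).cmul _).i _ _]
    refine Finset.sum_eq_zero fun k _ => ?_
    rw [intervalIntegral.integral_const_mul, int_ee_int, if_neg (by omega), mul_zero]
  · refine Continuous.intervalIntegrable ?_ _ _
    refine continuous_finsetSum _ fun k _ => ?_
    exact continuous_const.mul (continuous_ee.comp (continuous_const.mul continuous_id))

/-- the square of the real part of a polynomial with positive frequencies has half of the mass -/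
theorem TP_re_sq (c : ℕ → ℂ) (N : ℕ) : ∫ s in (0 : ℝ)..(2 * Real.pi), (TP c N s).re ^ 2 =
    Real.pi * ∑ k ∈ Finset.range N, ‖c k‖ ^ 2 := by
  have h1 := TP_sq c N
  have h2 := TP_sqint c N
  have b1 := TP_BM c N
  have b2 := b1.mul b1
  have h3 := int_re b2
  rw [h2, Complex.zero_re] at h3
  have i1 : IntervalIntegrable (fun s => ‖TP c N s‖ ^ 2) volume 0 (2 * Real.pi) := by
    refine intg_real (C := (∑ k ∈ Finset.range N, ‖c k‖) ^ 2) ((TP_meas c N).norm.pow_const 2) (fun t => ?_) _ _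
    rw [abs_of_nonneg (sq_nonneg _)]
    exact pow_le_pow_left₀ (norm_nonneg _) (TP_bd c N t) 2
  have i2 : IntervalIntegrable (fun s => (TP c N s * TP c N s).re) volume 0 (2 * Real.pi) :=
    intg_real (C := (∑ k ∈ Finset.range N, ‖c k‖) * ∑ k ∈ Finset.range N, ‖c k‖)
      (Complex.measurable_re.comp b2.m) (fun t => (Complex.abs_re_le_norm _).trans (b2.b t)) _ _
  have e : ∀ s, (TP c N s).re ^ 2 = 1 / 2 * ‖TP c N s‖ ^ 2 + 1 / 2 * (TP c N s * TP c N s).re := by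
    intro s
    rw [← Complex.normSq_eq_norm_sq, Complex.normSq_apply, Complex.mul_re]
    ring
  simp_rw [e]
  rw [intervalIntegral.integral_add (i1.const_mul _) (i2.const_mul _), intervalIntegral.integral_const_mul,
    intervalIntegral.integral_const_mul, h1, h3]
  ring

theorem TP_perpi (c : ℕ → ℂ) (N : ℕ) (s : ℝ) : TP c N (s + Real.pi) = TP c N s := by
  unfold TP
  refine Finset.sum_congr rfl fun k _ => ?_
  congr 1
  have e1 : lk k * (s + Real.pi) = lk k * s + ((k + 1 : ℕ) : ℝ) * (2 * Real.pi) := by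
    unfold lk; push_cast; ring
  rw [e1, ee_add]
  have e2 : ee (((k + 1 : ℕ) : ℝ) * (2 * Real.pi)) = 1 := by
    unfold ee
    have : ((((k + 1 : ℕ) : ℝ) * (2 * Real.pi) : ℝ) : ℂ) * Complex.I
        = ((k + 1 : ℕ) : ℂ) * (2 * Real.pi * Complex.I) := by
      push_cast; ring
    rw [this, Complex.exp_nat_mul_two_pi_mul_I]
  rw [e2, mul_one]

/-- BESSEL'S INEQUALITY FOR TWO REAL FAMILIES, sharp constant -/
theorem bessel2 {f1 f2 φ1 φ2 D1 D2 : ℝ → ℝ} {C a b : ℝ} (m1 : Measurable f1) (b1 : ∀ t, |f1 t| ≤ C)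
    (m2 : Measurable f2) (b2 : ∀ t, |f2 t| ≤ C) (n1 : Measurable φ1) (n2 : Measurable φ2) (k1 : Measurable D1)
    (k2 : Measurable D2) (ha : 0 < a) (l1 : ∀ t, a ≤ D1 t) (u1 : ∀ t, D1 t ≤ b) (l2 : ∀ t, a ≤ D2 t)
    (u2 : ∀ t, D2 t ≤ b) (hd : DensW φ1 φ2 D1 D2) (S : Finset ℕ) :
    ∑ k ∈ S, ‖yk f1 φ1 k + yk f2 φ2 k‖ ^ 2 ≤
      1 / 2 * (1 / (2 * Real.pi) * ∫ θ in (0 : ℝ)..(2 * Real.pi), (D1 θ * f1 θ ^ 2 + D2 θ * f2 θ ^ 2)) := by
  have hp := Real.pi_pos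
  obtain ⟨N, hN⟩ : ∃ N, S ⊆ Finset.range N := ⟨S.sup id + 1, fun k hk =>
    Finset.mem_range.2 (Nat.lt_succ_of_le (Finset.le_sup (f := id) hk))⟩
  set c : ℕ → ℂ := fun k => if k ∈ S then yk f1 φ1 k + yk f2 φ2 k else 0 with hc
  have hT : ∑ k ∈ S, ‖yk f1 φ1 k + yk f2 φ2 k‖ ^ 2 = ∑ k ∈ Finset.range N, ‖c k‖ ^ 2 := by
    rw [← Finset.sum_subset hN (fun k _ hk => by rw [hc]; simp only; rw [if_neg hk, norm_zero]; norm_num)]
    exact Finset.sum_congr rfl fun k hk => by rw [hc]; simp only; rw [if_pos hk]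
  rw [hT]
  set T := ∑ k ∈ Finset.range N, ‖c k‖ ^ 2 with hTd
  set P := TP c N with hP
  set M := ∑ k ∈ Finset.range N, ‖c k‖ with hM
  have mP : ∀ {φ : ℝ → ℝ}, Measurable φ → Measurable fun θ => P (φ θ) := fun n => (TP_meas c N).comp n
  have mR : ∀ {φ : ℝ → ℝ}, Measurable φ → Measurable fun θ => (P (φ θ)).re := fun n =>
    Complex.measurable_re.comp (mP n)
  have bR : ∀ s, |(P s).re| ≤ M := fun s => (Complex.abs_re_le_norm _).trans (TP_bd c N s)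
  -- the duality identity
  have hone : ∀ {f φ : ℝ → ℝ}, Measurable f → (∀ t, |f t| ≤ C) → Measurable φ →
      ∀ k, (starRingEnd ℂ) (yk f φ k) * c k = (1 / (2 * Real.pi) : ℂ) *
        ∫ θ in (0 : ℝ)..(2 * Real.pi), c k * ((f θ : ℂ) * ee (lk k * φ θ)) := by
    intro f φ mf bf n k
    unfold yk
    rw [map_mul]
    have e0 : (starRingEnd ℂ) (1 / (2 * Real.pi) : ℂ) = (1 / (2 * Real.pi) : ℂ) := by
      simp only [map_mul, map_div₀, map_one, map_ofNat, Complex.conj_ofReal]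
    rw [e0]
    have h1 : (starRingEnd ℂ) (∫ θ in (0 : ℝ)..(2 * Real.pi), (f θ : ℂ) * ee (-(lk k * φ θ))) =
        ∫ θ in (0 : ℝ)..(2 * Real.pi), (f θ : ℂ) * ee (lk k * φ θ) := by
      rw [intervalIntegral.integral_of_le (by positivity), intervalIntegral.integral_of_le (by positivity),
        ← integral_conj]
      refine integral_congr_ae (Filter.Eventually.of_forall fun θ => ?_)
      show (starRingEnd ℂ) ((f θ : ℂ) * ee (-(lk k * φ θ))) = _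
      rw [map_mul, Complex.conj_ofReal, ee_neg, Complex.conj_conj]
    rw [h1, intervalIntegral.integral_const_mul]
    ring
  have hbm : ∀ {f φ : ℝ → ℝ}, Measurable f → (∀ t, |f t| ≤ C) → Measurable φ → ∀ k,
      BM (fun θ => (f θ : ℂ) * ee (lk k * φ θ)) C := fun mf bf n k =>
    ⟨(Complex.measurable_ofReal.comp mf).mul (ee_meas (n.const_mul (lk k))), fun t => by
      rw [norm_mul, norm_ee, mul_one, Complex.norm_real, Real.norm_eq_abs]; exact bf t⟩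
  have hsum : ∀ {f φ : ℝ → ℝ}, Measurable f → (∀ t, |f t| ≤ C) → Measurable φ →
      ∑ k ∈ Finset.range N, (starRingEnd ℂ) (yk f φ k) * c k = (1 / (2 * Real.pi) : ℂ) *
        ∫ θ in (0 : ℝ)..(2 * Real.pi), (f θ : ℂ) * P (φ θ) := by
    intro f φ mf bf n
    rw [Finset.sum_congr rfl fun k _ => hone mf bf n k, ← Finset.mul_sum,
      ← intervalIntegral.integral_finsetSum fun k _ => ((hbm mf bf n k).cmul (c k)).i _ _]
    congr 1
    refine intervalIntegral.integral_congr fun θ _ => ?_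
    show ∑ k ∈ Finset.range N, c k * ((f θ : ℂ) * ee (lk k * φ θ)) = (f θ : ℂ) * TP c N (φ θ)
    unfold TP
    rw [Finset.mul_sum]
    exact Finset.sum_congr rfl fun k _ => by ring
  have hdual : (T : ℂ) = (1 / (2 * Real.pi) : ℂ) * ((∫ θ in (0 : ℝ)..(2 * Real.pi), (f1 θ : ℂ) * P (φ1 θ)) +
      ∫ θ in (0 : ℝ)..(2 * Real.pi), (f2 θ : ℂ) * P (φ2 θ)) := by
    rw [mul_add, ← hsum m1 b1 n1, ← hsum m2 b2 n2, ← Finset.sum_add_distrib, hTd, Complex.ofReal_sum]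
    refine Finset.sum_congr rfl fun k _ => ?_
    rw [← add_mul, ← map_add]
    by_cases hk : k ∈ S
    · have : c k = yk f1 φ1 k + yk f2 φ2 k := by rw [hc]; simp only; rw [if_pos hk]
      rw [← this, mul_comm, Complex.mul_conj, Complex.normSq_eq_norm_sq]
    · have : c k = 0 := by rw [hc]; simp only; rw [if_neg hk]
      rw [this, norm_zero, mul_zero]
      norm_num
  have hB : ∀ {f φ : ℝ → ℝ}, Measurable f → (∀ t, |f t| ≤ C) → Measurable φ →
      BM (fun θ => (f θ : ℂ) * P (φ θ)) (C * M) := fun mf bf n =>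
    BM.mul ⟨Complex.measurable_ofReal.comp mf, fun t => by
      rw [Complex.norm_real, Real.norm_eq_abs]; exact bf t⟩ ⟨mP n, fun θ => TP_bd c N _⟩
  have hre : T = 1 / (2 * Real.pi) * ∫ θ in (0 : ℝ)..(2 * Real.pi),
      (f1 θ * (P (φ1 θ)).re + f2 θ * (P (φ2 θ)).re) := by
    have h1 := congrArg Complex.re hdual
    have e0 : (1 / (2 * Real.pi) : ℂ) = ((1 / (2 * Real.pi) : ℝ) : ℂ) := by push_cast; rfl
    rw [Complex.ofReal_re, e0, Complex.re_ofReal_mul, Complex.add_re, ← int_re (hB m1 b1 n1),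
      ← int_re (hB m2 b2 n2), ← intervalIntegral.integral_add] at h1
    · rw [h1]
      congr 1
      refine intervalIntegral.integral_congr fun θ _ => ?_
      show ((f1 θ : ℂ) * P (φ1 θ)).re + ((f2 θ : ℂ) * P (φ2 θ)).re = _
      rw [Complex.re_ofReal_mul, Complex.re_ofReal_mul]
    · exact intg_real (C := C * M) (Complex.measurable_re.comp (hB m1 b1 n1).m)
        (fun t => (Complex.abs_re_le_norm _).trans ((hB m1 b1 n1).b t)) _ _
    · exact intg_real (C := C * M) (Complex.measurable_re.comp (hB m2 b2 n2).m)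
        (fun t => (Complex.abs_re_le_norm _).trans ((hB m2 b2 n2).b t)) _ _
  have hC0 : 0 ≤ C := (abs_nonneg _).trans (b1 0)
  have hb0 : 0 ≤ b := (ha.le.trans (l1 0)).trans (u1 0)
  have hM0 : 0 ≤ M := (abs_nonneg _).trans (bR 0)
  have iq : ∀ {f D : ℝ → ℝ}, Measurable f → (∀ t, |f t| ≤ C) → Measurable D → (∀ t, a ≤ D t) → (∀ t, D t ≤ b) →
      IntervalIntegrable (fun θ => D θ * f θ ^ 2) volume 0 (2 * Real.pi) := by
    intro f D mf bf mD lD uD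
    refine intg_real (C := b * C ^ 2) (mD.mul (mf.pow_const 2)) (fun t => ?_) _ _
    show |D t * f t ^ 2| ≤ _
    rw [abs_mul, abs_of_nonneg (ha.le.trans (lD t)), abs_of_nonneg (sq_nonneg (f t)), ← sq_abs]
    exact mul_le_mul (uD t) (pow_le_pow_left₀ (abs_nonneg _) (bf t) 2) (by positivity) hb0
  have is : ∀ {φ D : ℝ → ℝ}, Measurable φ → Measurable D → (∀ t, a ≤ D t) →
      IntervalIntegrable (fun θ => (P (φ θ)).re ^ 2 / D θ) volume 0 (2 * Real.pi) := by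
    intro φ D n mD lD
    refine intg_real (C := M ^ 2 / a) (((mR n).pow_const 2).div mD) (fun t => ?_) _ _
    show |(P (φ t)).re ^ 2 / D t| ≤ _
    rw [abs_div, abs_of_nonneg (sq_nonneg _), abs_of_pos (ha.trans_le (lD t))]
    refine div_le_div₀ (by positivity) ?_ ha (lD t)
    rw [← sq_abs]
    exact pow_le_pow_left₀ (abs_nonneg _) (bR _) 2
  have hmono : ∫ θ in (0 : ℝ)..(2 * Real.pi), (f1 θ * (P (φ1 θ)).re + f2 θ * (P (φ2 θ)).re) ≤
      ∫ θ in (0 : ℝ)..(2 * Real.pi), (1 / 4 * (D1 θ * f1 θ ^ 2 + D2 θ * f2 θ ^ 2) +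
        ((P (φ1 θ)).re ^ 2 / D1 θ + (P (φ2 θ)).re ^ 2 / D2 θ)) := by
    refine intervalIntegral.integral_mono_on (by positivity) ?_ ?_ ?_
    · refine IntervalIntegrable.add ?_ ?_
      · refine intg_real (C := C * M) (m1.mul (mR n1)) (fun t => ?_) _ _
        show |f1 t * (P (φ1 t)).re| ≤ _
        rw [abs_mul]; exact mul_le_mul (b1 t) (bR _) (abs_nonneg _) hC0
      · refine intg_real (C := C * M) (m2.mul (mR n2)) (fun t => ?_) _ _
        show |f2 t * (P (φ2 t)).re| ≤ _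
        rw [abs_mul]; exact mul_le_mul (b2 t) (bR _) (abs_nonneg _) hC0
    · exact (((iq m1 b1 k1 l1 u1).add (iq m2 b2 k2 l2 u2)).const_mul _).add ((is n1 k1 l1).add (is n2 k2 l2))
    · intro θ _
      have hpt : ∀ x s D : ℝ, 0 < D → x * s ≤ 1 / 4 * (D * x ^ 2) + s ^ 2 / D := by
        intro x s D hD
        have h3 : 0 ≤ (D * x - 2 * s) ^ 2 / (4 * D) := by positivity
        have h4 : (D * x - 2 * s) ^ 2 / (4 * D) = 1 / 4 * (D * x ^ 2) + s ^ 2 / D - x * s := by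
          field_simp
          ring
        linarith
      have q1 := hpt (f1 θ) (P (φ1 θ)).re (D1 θ) (ha.trans_le (l1 θ))
      have q2 := hpt (f2 θ) (P (φ2 θ)).re (D2 θ) (ha.trans_le (l2 θ))
      linarith
  rw [intervalIntegral.integral_add (((iq m1 b1 k1 l1 u1).add (iq m2 b2 k2 l2 u2)).const_mul _)
    ((is n1 k1 l1).add (is n2 k2 l2)), intervalIntegral.integral_const_mul] at hmono
  have hdd := hd (fun s => (P s).re ^ 2) ((Complex.measurable_re.comp (TP_meas c N)).pow_const 2)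
    (fun s => sq_nonneg _) ⟨M ^ 2, fun s => by
      rw [← sq_abs]; exact pow_le_pow_left₀ (abs_nonneg _) (bR _) 2⟩ (fun s => by
      show (P (s + Real.pi)).re ^ 2 = _
      rw [hP, TP_perpi])
  rw [TP_re_sq] at hdd
  set I := ∫ θ in (0 : ℝ)..(2 * Real.pi), (D1 θ * f1 θ ^ 2 + D2 θ * f2 θ ^ 2) with hI
  have h8 : T ≤ 1 / (2 * Real.pi) * (1 / 4 * I + Real.pi * T) :=
    hre.le.trans (mul_le_mul_of_nonneg_left (by linarith) (by positivity))
  have h9 : 1 / (2 * Real.pi) * (1 / 4 * I + Real.pi * T) = 1 / 4 * (1 / (2 * Real.pi) * I) + 1 / 2 * T := by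
    field_simp
  linarith

/-- the weights from the slopes -/
theorem densW_slope {φ1 φ2 d1 d2 : ℝ → ℝ} (h1 : ∀ x, HasDerivAt φ1 (d1 x) x) (h2 : ∀ x, HasDerivAt φ2 (d2 x) x)
    (c1 : Continuous d1) (c2 : Continuous d2) (p1 : ∀ x, 0 < d1 x) (p2 : ∀ x, 0 < d2 x)
    (q1 : ∀ x, φ1 (x + 2 * Real.pi) = φ1 x + 2 * Real.pi) (q2 : ∀ x, φ2 (x + 2 * Real.pi) = φ2 x + 2 * Real.pi) :
    DensW φ1 φ2 (fun θ => 2 / d1 θ) (fun θ => 2 / d2 θ) := by
  intro F mF pF bF perF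
  obtain ⟨C, hC⟩ := bF
  have per2 : ∀ x, F (x + 2 * Real.pi) = F x := fun x => by
    rw [show x + 2 * Real.pi = (x + Real.pi) + Real.pi by ring, perF, perF]
  have m1 : Measurable φ1 := (continuous_iff_continuousAt.2 fun x => (h1 x).continuousAt).measurable
  have m2 : Measurable φ2 := (continuous_iff_continuousAt.2 fun x => (h2 x).continuousAt).measurable
  have key : ∀ {φ d : ℝ → ℝ}, Measurable φ → Continuous d →
      IntervalIntegrable (fun θ => d θ * F (φ θ)) volume 0 (2 * Real.pi) := by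
    intro φ d mφ cd
    have hFi : IntervalIntegrable (fun θ => F (φ θ)) volume 0 (2 * Real.pi) := by
      refine intg_real (C := C) (mF.comp mφ) (fun t => ?_) _ _
      show |F (φ t)| ≤ C
      rw [abs_of_nonneg (pF _)]; exact hC _
    exact hFi.continuousOn_mul cd.continuousOn
  have e : ∀ θ, F (φ1 θ) / (2 / d1 θ) + F (φ2 θ) / (2 / d2 θ) =
      1 / 2 * (d1 θ * F (φ1 θ)) + 1 / 2 * (d2 θ * F (φ2 θ)) := by
    intro θ
    have := p1 θ
    have := p2 θ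
    field_simp
  simp_rw [e]
  rw [intervalIntegral.integral_add ((key m1 c1).const_mul _) ((key m2 c2).const_mul _),
    intervalIntegral.integral_const_mul, intervalIntegral.integral_const_mul, cov h1 p1 q1 per2, cov h2 p2 q2 per2]
  linarith

theorem densI_one_le {φ : ℝ → ℝ} {ρ : ℝ} (h : DensI φ ρ) : 1 ≤ ρ := by
  have hp := Real.pi_pos
  have h := h (fun _ => 1) measurable_const (fun _ => zero_le_one) ⟨1, fun _ => le_refl _⟩ (fun _ => rfl)
  simp only [intervalIntegral.integral_const, sub_zero, smul_eq_mul, mul_one] at h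
  nlinarith

/-- constant weights -/
theorem densW_const {φ1 φ2 : ℝ → ℝ} {ρ1 ρ2 : ℝ} (m1 : Measurable φ1) (m2 : Measurable φ2) (h1 : DensI φ1 ρ1)
    (h2 : DensI φ2 ρ2) : DensW φ1 φ2 (fun _ => ρ1 + ρ2) (fun _ => ρ1 + ρ2) := by
  intro F mF pF bF perF
  have hb := bF
  obtain ⟨C, hC⟩ := bF
  have per2 : ∀ x, F (x + 2 * Real.pi) = F x := fun x => by
    rw [show x + 2 * Real.pi = (x + Real.pi) + Real.pi by ring, perF, perF]
  have key : ∀ {φ : ℝ → ℝ}, Measurable φ → IntervalIntegrable (fun θ => F (φ θ)) volume 0 (2 * Real.pi) := by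
    intro φ mφ
    refine intg_real (C := C) (mF.comp mφ) (fun t => ?_) _ _
    show |F (φ t)| ≤ C
    rw [abs_of_nonneg (pF _)]; exact hC _
  have a1 := h1 F mF pF hb per2
  have a2 := h2 F mF pF hb per2
  have r1 := densI_one_le h1
  have r2 := densI_one_le h2
  show ∫ θ in (0 : ℝ)..(2 * Real.pi), (F (φ1 θ) / (ρ1 + ρ2) + F (φ2 θ) / (ρ1 + ρ2)) ≤ _
  rw [intervalIntegral.integral_add ((key m1).div_const _) ((key m2).div_const _),
    intervalIntegral.integral_div, intervalIntegral.integral_div, ← add_div, div_le_iff₀ (by linarith)]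
  linarith

/-- one row -/
theorem row_le (x y : ℂ) {l l0 : ℝ} (h0 : 1 < l0) (h : l0 ≤ l) :
    ‖x - Complex.I * (l : ℂ) * y‖ ^ 2 / (l ^ 2 - 1) ≤ l0 / (l0 - 1) * ‖y‖ ^ 2 + 1 / (l0 - 1) * ‖x‖ ^ 2 := by
  have hl : 1 < l := by linarith
  have hd : 0 < l ^ 2 - 1 := by nlinarith
  have a1 : ‖x - Complex.I * (l : ℂ) * y‖ ≤ ‖x‖ + l * ‖y‖ := by
    refine (norm_sub_le _ _).trans ?_
    rw [norm_mul, norm_mul, Complex.norm_I, one_mul, Complex.norm_real, Real.norm_eq_abs, abs_of_nonneg (by linarith)]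
  have a2 := pow_le_pow_left₀ (norm_nonneg _) a1 2
  have a3 : (‖x‖ + l * ‖y‖) ^ 2 ≤ (l ^ 2 - 1) * (l / (l - 1) * ‖y‖ ^ 2 + 1 / (l - 1) * ‖x‖ ^ 2) := by
    have hl1 : 0 < l - 1 := by linarith
    have e : (l ^ 2 - 1) * (l / (l - 1) * ‖y‖ ^ 2 + 1 / (l - 1) * ‖x‖ ^ 2) =
        (l + 1) * (l * ‖y‖ ^ 2 + ‖x‖ ^ 2) := by
      field_simp
      ring
    rw [e]
    nlinarith [sq_nonneg (‖x‖ - ‖y‖)]
  have a4 : l / (l - 1) ≤ l0 / (l0 - 1) := by
    rw [div_le_div_iff₀ (by linarith) (by linarith)]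
    nlinarith
  have a5 : 1 / (l - 1) ≤ 1 / (l0 - 1) := one_div_le_one_div_of_le (by linarith) (by linarith)
  rw [div_le_iff₀ hd]
  have a6 := mul_le_mul_of_nonneg_right a4 (sq_nonneg ‖y‖)
  have a7 := mul_le_mul_of_nonneg_right a5 (sq_nonneg ‖x‖)
  have a8 := mul_le_mul_of_nonneg_left (add_le_add a6 a7) hd.le
  linarith

/-- mean of `D1 (Im g1 ee(-φ1))² + D2 (Im g2 ee(-φ2))²` -/
noncomputable def mY (g1 g2 : ℝ → ℂ) (φ1 φ2 D1 D2 : ℝ → ℝ) : ℝ := 1 / (2 * Real.pi) *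
  ∫ θ in (0 : ℝ)..(2 * Real.pi), (D1 θ * (g1 θ * ee (-φ1 θ)).im ^ 2 + D2 θ * (g2 θ * ee (-φ2 θ)).im ^ 2)
/-- mean of `D1 (Re g1 ee(-φ1))² + D2 (Re g2 ee(-φ2))²` -/
noncomputable def mX (g1 g2 : ℝ → ℂ) (φ1 φ2 D1 D2 : ℝ → ℝ) : ℝ := 1 / (2 * Real.pi) *
  ∫ θ in (0 : ℝ)..(2 * Real.pi), (D1 θ * (g1 θ * ee (-φ1 θ)).re ^ 2 + D2 θ * (g2 θ * ee (-φ2 θ)).re ^ 2)

/-- the moments of the imaginary and of the real parts -/
noncomputable def Yk (g1 g2 : ℝ → ℂ) (φ1 φ2 : ℝ → ℝ) (k : ℕ) : ℂ :=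
  yk (fun θ => (g1 θ * ee (-φ1 θ)).im) φ1 k + yk (fun θ => (g2 θ * ee (-φ2 θ)).im) φ2 k
noncomputable def Xk (g1 g2 : ℝ → ℂ) (φ1 φ2 : ℝ → ℝ) (k : ℕ) : ℂ :=
  yk (fun θ => (g1 θ * ee (-φ1 θ)).re) φ1 k + yk (fun θ => (g2 θ * ee (-φ2 θ)).re) φ2 k

section

variable {g1 g2 : ℝ → ℂ} {φ1 φ2 D1 D2 : ℝ → ℝ} {C a b : ℝ}

/-- two weights -/
structure WOK (φ1 φ2 D1 D2 : ℝ → ℝ) (a b : ℝ) : Prop where
  n1 : Measurable φ1
  n2 : Measurable φ2
  k1 : Measurable D1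
  k2 : Measurable D2
  pos : 0 < a
  l1 : ∀ t, a ≤ D1 t
  u1 : ∀ t, D1 t ≤ b
  l2 : ∀ t, a ≤ D2 t
  u2 : ∀ t, D2 t ≤ b
  dens : DensW φ1 φ2 D1 D2

theorem Yk_sum (h1 : BM g1 C) (h2 : BM g2 C) (w : WOK φ1 φ2 D1 D2 a b) (S : Finset ℕ) :
    ∑ k ∈ S, ‖Yk g1 g2 φ1 φ2 k‖ ^ 2 ≤ 1 / 2 * mY g1 g2 φ1 φ2 D1 D2 := by
  refine bessel2 (C := C) (Complex.measurable_im.comp (h1.m.mul (ee_meas w.n1.neg))) (fun t => ?_)
    (Complex.measurable_im.comp (h2.m.mul (ee_meas w.n2.neg))) (fun t => ?_) w.n1 w.n2 w.k1 w.k2 w.pos w.l1 w.u1 w.l2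
    w.u2 w.dens S
  · show |(g1 t * ee (-φ1 t)).im| ≤ C
    refine (Complex.abs_im_le_norm _).trans ?_
    rw [norm_mul, norm_ee, mul_one]; exact h1.b t
  · show |(g2 t * ee (-φ2 t)).im| ≤ C
    refine (Complex.abs_im_le_norm _).trans ?_
    rw [norm_mul, norm_ee, mul_one]; exact h2.b t

theorem Xk_sum (h1 : BM g1 C) (h2 : BM g2 C) (w : WOK φ1 φ2 D1 D2 a b) (S : Finset ℕ) :
    ∑ k ∈ S, ‖Xk g1 g2 φ1 φ2 k‖ ^ 2 ≤ 1 / 2 * mX g1 g2 φ1 φ2 D1 D2 := by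
  refine bessel2 (C := C) (Complex.measurable_re.comp (h1.m.mul (ee_meas w.n1.neg))) (fun t => ?_)
    (Complex.measurable_re.comp (h2.m.mul (ee_meas w.n2.neg))) (fun t => ?_) w.n1 w.n2 w.k1 w.k2 w.pos w.l1 w.u1 w.l2
    w.u2 w.dens S
  · show |(g1 t * ee (-φ1 t)).re| ≤ C
    refine (Complex.abs_re_le_norm _).trans ?_
    rw [norm_mul, norm_ee, mul_one]; exact h1.b t
  · show |(g2 t * ee (-φ2 t)).re| ≤ C
    refine (Complex.abs_re_le_norm _).trans ?_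
    rw [norm_mul, norm_ee, mul_one]; exact h2.b t

theorem eM_XY (h1 : BM g1 C) (h2 : BM g2 C) (n1 : Measurable φ1) (n2 : Measurable φ2) (k : ℕ) :
    eM g1 g2 φ1 φ2 (lk k) = Xk g1 g2 φ1 φ2 k - Complex.I * (lk k : ℂ) * Yk g1 g2 φ1 φ2 k :=
  eM_yk h1 h2 n1 n2 k

/-- THE ROWS `k ∈ S`, all `≥ K`, of the aligned moments -/
theorem eM_tail (h1 : BM g1 C) (h2 : BM g2 C) (w : WOK φ1 φ2 D1 D2 a b) (K : ℕ) (S : Finset ℕ)
    (hS : ∀ k ∈ S, K ≤ k) :
    ∑ k ∈ S, ‖eM g1 g2 φ1 φ2 (lk k)‖ ^ 2 / (lk k ^ 2 - 1) ≤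
      1 / 2 * (lk K / (lk K - 1) * mY g1 g2 φ1 φ2 D1 D2 + 1 / (lk K - 1) * mX g1 g2 φ1 φ2 D1 D2) := by
  have hK := lk_ge K
  have hd : 0 < lk K - 1 := by linarith
  have e : ∀ k ∈ S, ‖eM g1 g2 φ1 φ2 (lk k)‖ ^ 2 / (lk k ^ 2 - 1) ≤
      lk K / (lk K - 1) * ‖Yk g1 g2 φ1 φ2 k‖ ^ 2 + 1 / (lk K - 1) * ‖Xk g1 g2 φ1 φ2 k‖ ^ 2 := by
    intro k hk
    rw [eM_XY h1 h2 w.n1 w.n2]
    refine row_le _ _ (by linarith) ?_
    have : (K : ℝ) ≤ k := by exact_mod_cast hS k hk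
    unfold lk
    linarith
  refine (Finset.sum_le_sum e).trans ?_
  rw [Finset.sum_add_distrib, ← Finset.mul_sum, ← Finset.mul_sum]
  have y := mul_le_mul_of_nonneg_left (Yk_sum h1 h2 w S) (by positivity : 0 ≤ lk K / (lk K - 1))
  have x := mul_le_mul_of_nonneg_left (Xk_sum h1 h2 w S) (by positivity : 0 ≤ 1 / (lk K - 1))
  linarith

/-- the series of the rows `≥ K` -/
theorem eM_tail_tsum (h1 : BM g1 C) (h2 : BM g2 C) (w : WOK φ1 φ2 D1 D2 a b) (K : ℕ) :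
    ∑' k : ℕ, ‖eM g1 g2 φ1 φ2 (lk (k + K))‖ ^ 2 / (lk (k + K) ^ 2 - 1) ≤
      1 / 2 * (lk K / (lk K - 1) * mY g1 g2 φ1 φ2 D1 D2 + 1 / (lk K - 1) * mX g1 g2 φ1 φ2 D1 D2) := by
  refine Real.tsum_le_of_sum_range_le (fun k => div_nonneg (by positivity) (lk_sq _).le) fun n => ?_
  have := eM_tail h1 h2 w K ((Finset.range n).map (addRightEmbedding K)) (fun k hk => by
    rw [Finset.mem_map] at hk
    obtain ⟨j, _, rfl⟩ := hk
    show K ≤ j + K
    omega)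
  rw [Finset.sum_map] at this
  exact this

theorem mY_add_mX (h1 : BM g1 C) (h2 : BM g2 C) (w : WOK φ1 φ2 D1 D2 a b) :
    mY g1 g2 φ1 φ2 D1 D2 + mX g1 g2 φ1 φ2 D1 D2 =
      1 / (2 * Real.pi) * ∫ θ in (0 : ℝ)..(2 * Real.pi), (D1 θ * ‖g1 θ‖ ^ 2 + D2 θ * ‖g2 θ‖ ^ 2) := by
  have hC0 : 0 ≤ C := (norm_nonneg _).trans (h1.b 0)
  have hb0 : 0 ≤ b := (w.pos.le.trans (w.l1 0)).trans (w.u1 0)
  have key : ∀ {g : ℝ → ℂ} {φ D : ℝ → ℝ} (p : ℂ → ℝ), BM g C → Measurable φ → Measurable D → (∀ t, a ≤ D t) →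
      (∀ t, D t ≤ b) → Measurable p → (∀ z, |p z| ≤ ‖z‖) →
      IntervalIntegrable (fun θ => D θ * p (g θ * ee (-φ θ)) ^ 2) volume 0 (2 * Real.pi) := by
    intro g φ D p hg hφ mD lD uD mp bp
    refine intg_real (C := b * C ^ 2) (mD.mul ((mp.comp (hg.m.mul (ee_meas hφ.neg))).pow_const 2)) (fun t => ?_) _ _
    show |D t * p (g t * ee (-φ t)) ^ 2| ≤ _
    rw [abs_mul, abs_of_nonneg (w.pos.le.trans (lD t)), abs_of_nonneg (sq_nonneg _), ← sq_abs]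
    refine mul_le_mul (uD t) (pow_le_pow_left₀ (abs_nonneg _) ((bp _).trans ?_) 2) (by positivity) hb0
    rw [norm_mul, norm_ee, mul_one]; exact hg.b t
  have i1 := key Complex.im h1 w.n1 w.k1 w.l1 w.u1 Complex.measurable_im Complex.abs_im_le_norm
  have i2 := key Complex.im h2 w.n2 w.k2 w.l2 w.u2 Complex.measurable_im Complex.abs_im_le_norm
  have r1 := key Complex.re h1 w.n1 w.k1 w.l1 w.u1 Complex.measurable_re Complex.abs_re_le_norm
  have r2 := key Complex.re h2 w.n2 w.k2 w.l2 w.u2 Complex.measurable_re Complex.abs_re_le_norm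
  unfold mY mX
  rw [← mul_add, ← intervalIntegral.integral_add (i1.add i2) (r1.add r2)]
  congr 1
  refine intervalIntegral.integral_congr fun θ _ => ?_
  have hn : ∀ (g : ℂ) (φ : ℝ), ‖g‖ ^ 2 = (g * ee (-φ)).re ^ 2 + (g * ee (-φ)).im ^ 2 := by
    intro g φ
    have : ‖g‖ = ‖g * ee (-φ)‖ := by rw [norm_mul, norm_ee, mul_one]
    rw [this, ← Complex.normSq_eq_norm_sq, Complex.normSq_apply]
    ring
  show D1 θ * (g1 θ * ee (-φ1 θ)).im ^ 2 + D2 θ * (g2 θ * ee (-φ2 θ)).im ^ 2 +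
    (D1 θ * (g1 θ * ee (-φ1 θ)).re ^ 2 + D2 θ * (g2 θ * ee (-φ2 θ)).re ^ 2) = D1 θ * ‖g1 θ‖ ^ 2 + D2 θ * ‖g2 θ‖ ^ 2
  rw [hn (g1 θ) (φ1 θ), hn (g2 θ) (φ2 θ)]
  ring

end

end Pool.Agent.Helper17.RC
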