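import Pool.Agent.Helper17.RC.TailD2

/-!
# Project RC, track B: the series (D2) with `γ = 0`

`D2_sq`: it is minus a sum of squares. `D2_add`: base plus rest. `D2_tail`: finitely many rows, the rest by means.
`D2_tail_split`: the same with a head and a tail family. `densW_inv`: the density property of inverse alignments.
-/

open MeasureTheory Set Filter Metric Topology

namespace Pool.Agent.Helper17.RC

open Helper49.LT hiding sg
open Helper87.RC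
open Helper56.RC (fc)
open Pool.Agent.Helper20.RC

/-- INVERSE ALIGNMENTS: the density weights are the values at the angle of `W`,
if `2 W` bounds the sum of the four slopes -/
theorem densW_inv {Θ1 Θ2 t1 t2 φ1 φ2 W : ℝ → ℝ} (h1 : ∀ x, HasDerivAt Θ1 (t1 x) x)
    (h2 : ∀ x, HasDerivAt Θ2 (t2 x) x) (c1 : Continuous t1) (c2 : Continuous t2) (p1 : ∀ x, 0 < t1 x)
    (p2 : ∀ x, 0 < t2 x) (q1 : ∀ x, Θ1 (x + 2 * Real.pi) = Θ1 x + 2 * Real.pi)
    (q2 : ∀ x, Θ2 (x + 2 * Real.pi) = Θ2 x + 2 * Real.pi) (i1 : ∀ x, φ1 (Θ1 x) = x) (i2 : ∀ x, φ2 (Θ2 x) = x)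
    (r1 : ∀ x, φ1 (x + 2 * Real.pi) = φ1 x + 2 * Real.pi) (r2 : ∀ x, φ2 (x + 2 * Real.pi) = φ2 x + 2 * Real.pi)
    (cW : Continuous W) (pW : ∀ x, 0 < W x) (perW : ∀ x, W (x + Real.pi) = W x)
    (m1 : Measurable φ1) (m2 : Measurable φ2)
    (hs : ∀ x, t1 x + t1 (x + Real.pi) + t2 x + t2 (x + Real.pi) ≤ 2 * W x) :
    DensW φ1 φ2 (fun θ => W (φ1 θ)) (fun θ => W (φ2 θ)) := by
  intro F mF pF bF perF
  obtain ⟨C, hC⟩ := bF
  have hp := Real.pi_pos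
  have per2 : ∀ x, F (x + 2 * Real.pi) = F x := fun x => by
    rw [show x + 2 * Real.pi = (x + Real.pi) + Real.pi by ring, perF, perF]
  have perW2 : ∀ x, W (x + 2 * Real.pi) = W x := fun x => by
    rw [show x + 2 * Real.pi = (x + Real.pi) + Real.pi by ring, perW, perW]
  have pt : ∀ {Θ t : ℝ → ℝ}, (∀ x, HasDerivAt Θ (t x) x) → (∀ x, Θ (x + 2 * Real.pi) = Θ x + 2 * Real.pi) →
      ∀ x, t (x + 2 * Real.pi) = t x := by
    intro Θ t h q x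
    have e1 : HasDerivAt (fun y => Θ (y + 2 * Real.pi)) (t (x + 2 * Real.pi)) x :=
      (h (x + 2 * Real.pi)).comp_add_const x (2 * Real.pi)
    have e2 : HasDerivAt (fun y => Θ (y + 2 * Real.pi)) (t x) x := by
      have : (fun y => Θ (y + 2 * Real.pi)) = fun y => Θ y + 2 * Real.pi := funext q
      rw [this]
      exact (h x).add_const _
    exact e1.unique e2
  obtain ⟨w, hw, hwle⟩ : ∃ w, 0 < w ∧ ∀ x, w ≤ W x := by
    obtain ⟨x0, _, hx0⟩ := (isCompact_Icc (a := (0 : ℝ)) (b := 2 * Real.pi)).exists_isMinOn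
      ⟨0, by constructor <;> positivity⟩ cW.continuousOn
    refine ⟨W x0, pW x0, fun x => ?_⟩
    obtain ⟨y, hy, hxy⟩ : ∃ y ∈ Set.Ico (0 : ℝ) (0 + 2 * Real.pi), W x = W y :=
      (show Function.Periodic W (2 * Real.pi) from perW2).exists_mem_Ico (by positivity) x 0
    rw [hxy]
    exact hx0 ⟨hy.1, by have := hy.2; linarith⟩
  have key : ∀ {Θ t φ : ℝ → ℝ}, (∀ x, HasDerivAt Θ (t x) x) → Continuous t → (∀ x, 0 < t x) →
      (∀ x, Θ (x + 2 * Real.pi) = Θ x + 2 * Real.pi) → (∀ x, φ (Θ x) = x) →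
      (∀ x, φ (x + 2 * Real.pi) = φ x + 2 * Real.pi) → Measurable φ →
      IntervalIntegrable (fun θ => F (φ θ) / W (φ θ)) volume 0 (2 * Real.pi) ∧
      ∫ θ in (0 : ℝ)..(2 * Real.pi), F (φ θ) / W (φ θ) = ∫ x in (0 : ℝ)..(2 * Real.pi), t x * (F x / W x) := by
    intro Θ t φ h c p q i r m
    refine ⟨?_, ?_⟩
    · refine intg_real (C := C / w) ((mF.comp m).div (cW.measurable.comp m)) (fun x => ?_) _ _
      show |F (φ x) / W (φ x)| ≤ _
      rw [abs_div, abs_of_nonneg (pF _), abs_of_pos (pW _)]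
      exact div_le_div₀ ((pF 0).trans (hC 0)) (hC _) hw (hwle _)
    · have := cov h p q (F := fun θ => F (φ θ) / W (φ θ)) (fun x => by
        simp only [r, per2, perW2])
      rw [← this]
      refine intervalIntegral.integral_congr fun x _ => ?_
      simp only [i]
  obtain ⟨ia, ea⟩ := key h1 c1 p1 q1 i1 r1 m1
  obtain ⟨ib, eb⟩ := key h2 c2 p2 q2 i2 r2 m2
  show ∫ θ in (0 : ℝ)..(2 * Real.pi), (F (φ1 θ) / W (φ1 θ) + F (φ2 θ) / W (φ2 θ)) ≤ _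
  rw [intervalIntegral.integral_add ia ib, ea, eb]
  have iF : ∀ {t : ℝ → ℝ}, Continuous t → ∀ u v, IntervalIntegrable (fun x => t x * (F x / W x)) volume u v := by
    intro t c u v
    have : IntervalIntegrable (fun x => F x / W x) volume u v := by
      refine intg_real (C := C / w) (mF.div cW.measurable) (fun x => ?_) _ _
      show |F x / W x| ≤ _
      rw [abs_div, abs_of_nonneg (pF _), abs_of_pos (pW _)]
      exact div_le_div₀ ((pF 0).trans (hC 0)) (hC _) hw (hwle _)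
    exact this.continuousOn_mul c.continuousOn
  rw [← intervalIntegral.integral_add (iF c1 _ _) (iF c2 _ _)]
  set G : ℝ → ℝ := fun x => t1 x * (F x / W x) + t2 x * (F x / W x) with hG
  have iG : ∀ u v, IntervalIntegrable G volume u v := fun u v => (iF c1 u v).add (iF c2 u v)
  have perG : Function.Periodic G (2 * Real.pi) := fun x => by
    simp only [hG, per2, perW2, pt h1 q1 x, pt h2 q2 x]
  have eG : ∫ x in (0 : ℝ)..(2 * Real.pi), G (x + Real.pi) = ∫ x in (0 : ℝ)..(2 * Real.pi), G x := by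
    rw [intervalIntegral.integral_comp_add_right]
    have := perG.intervalIntegral_add_eq (0 + Real.pi) 0
    rw [zero_add, zero_add] at this
    rw [zero_add, show 2 * Real.pi + Real.pi = Real.pi + 2 * Real.pi by ring]
    exact this
  have iGp : IntervalIntegrable (fun x => G (x + Real.pi)) volume 0 (2 * Real.pi) := by
    have := (iG (0 + Real.pi) (2 * Real.pi + Real.pi)).comp_add_right Real.pi
    simpa using this
  have iFF : IntervalIntegrable F volume 0 (2 * Real.pi) :=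
    intg_real (C := C) mF (fun x => by rw [abs_of_nonneg (pF _)]; exact hC _) _ _
  have hmono : ∫ x in (0 : ℝ)..(2 * Real.pi), (G x + G (x + Real.pi)) ≤ ∫ x in (0 : ℝ)..(2 * Real.pi), 2 * F x := by
    refine intervalIntegral.integral_mono_on (by positivity) ((iG _ _).add iGp) (iFF.const_mul _) fun x _ => ?_
    have e : G x + G (x + Real.pi) = (t1 x + t1 (x + Real.pi) + t2 x + t2 (x + Real.pi)) * (F x / W x) := by
      simp only [hG, perF, perW]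
      ring
    rw [e]
    have h3 := mul_le_mul_of_nonneg_right (hs x) (div_nonneg (pF x) (pW x).le)
    have h4 : 2 * W x * (F x / W x) = 2 * F x := by
      have := (pW x).ne'
      field_simp
    linarith
  rw [intervalIntegral.integral_add (iG _ _) iGp, eG, intervalIntegral.integral_const_mul] at hmono
  linarith

/-- constant total density: `D1 = D2 = κ/2` if the sum of the four slopes is at most `κ` -/
theorem densW_inv_const {Θ1 Θ2 t1 t2 φ1 φ2 : ℝ → ℝ} {κ : ℝ} (h1 : ∀ x, HasDerivAt Θ1 (t1 x) x)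
    (h2 : ∀ x, HasDerivAt Θ2 (t2 x) x) (c1 : Continuous t1) (c2 : Continuous t2) (p1 : ∀ x, 0 < t1 x)
    (p2 : ∀ x, 0 < t2 x) (q1 : ∀ x, Θ1 (x + 2 * Real.pi) = Θ1 x + 2 * Real.pi)
    (q2 : ∀ x, Θ2 (x + 2 * Real.pi) = Θ2 x + 2 * Real.pi) (i1 : ∀ x, φ1 (Θ1 x) = x) (i2 : ∀ x, φ2 (Θ2 x) = x)
    (r1 : ∀ x, φ1 (x + 2 * Real.pi) = φ1 x + 2 * Real.pi) (r2 : ∀ x, φ2 (x + 2 * Real.pi) = φ2 x + 2 * Real.pi)
    (m1 : Measurable φ1) (m2 : Measurable φ2)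
    (hs : ∀ x, t1 x + t1 (x + Real.pi) + t2 x + t2 (x + Real.pi) ≤ κ) :
    DensW φ1 φ2 (fun _ => κ / 2) (fun _ => κ / 2) := by
  have hκ : 0 < κ := by
    have := hs 0
    have := p1 0
    have := p1 (0 + Real.pi)
    have := p2 0
    have := p2 (0 + Real.pi)
    linarith
  exact densW_inv h1 h2 c1 c2 p1 p2 q1 q2 i1 i2 r1 r2 (W := fun _ => κ / 2) continuous_const
    (fun _ => by positivity) (fun _ => rfl) m1 m2 (fun x => by linarith [hs x])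

/-- one row of (D2) with `γ = 0` -/
theorem D2_term {ν d : ℝ} (hν : 0 < ν) (hd : 0 < d) (H e : ℂ) :
    2 * (H * (starRingEnd ℂ) e).re + 2 * (H * (starRingEnd ℂ) (0 : ℂ)).re - 2 / ν * d * ‖H‖ ^ 2
        - ν / 2 * ‖e - 0‖ ^ 2 / d =
      -(2 / ν) * (‖(d : ℂ) * H - ((ν / 2 : ℝ) : ℂ) * e‖ ^ 2 / d) := by
  have e1 : ((d : ℂ) * H - ((ν / 2 : ℝ) : ℂ) * e : ℂ) = ⟨d * H.re - ν / 2 * e.re, d * H.im - ν / 2 * e.im⟩ := by
    apply Complex.ext
    · simp only [Complex.sub_re, Complex.re_ofReal_mul]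
    · simp only [Complex.sub_im, Complex.im_ofReal_mul]
  rw [e1, map_zero, mul_zero, Complex.zero_re, mul_zero, sub_zero, ← Complex.normSq_eq_norm_sq,
    ← Complex.normSq_eq_norm_sq, ← Complex.normSq_eq_norm_sq,
    Complex.normSq_apply, Complex.normSq_apply, Complex.normSq_apply]
  simp only [Complex.mul_re, Complex.conj_re, Complex.conj_im]
  field_simp
  ring

/-- the linear functional of the row `k` -/
noncomputable def qr (ν : ℝ) (H e : ℕ → ℂ) (k : ℕ) : ℂ :=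
  ((lk k ^ 2 - 1 : ℝ) : ℂ) * H k - ((ν / 2 : ℝ) : ℂ) * e k

/-- (D2) WITH `γ = 0` IS MINUS A SUM OF SQUARES -/
theorem D2_sq {ν : ℝ} (hν : 0 < ν) (H e : ℕ → ℂ) :
    Helper49.Sharp.D2 ν H e (fun _ => 0) = -(2 / ν) * ∑' k, ‖qr ν H e k‖ ^ 2 / (lk k ^ 2 - 1) := by
  unfold Helper49.Sharp.D2
  rw [← tsum_mul_left]
  refine tsum_congr fun k => ?_
  exact D2_term hν (lk_sq k) (H k) (e k)

theorem qr_nonneg (ν : ℝ) (H e : ℕ → ℂ) (k : ℕ) : 0 ≤ ‖qr ν H e k‖ ^ 2 / (lk k ^ 2 - 1) :=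
  div_nonneg (sq_nonneg _) (lk_sq k).le

/-- Young for two complex numbers -/
theorem young (x y : ℂ) {c : ℝ} (hc : 0 < c) : ‖x + y‖ ^ 2 ≤ (1 + c) * ‖x‖ ^ 2 + (1 + 1 / c) * ‖y‖ ^ 2 := by
  have h1 := pow_le_pow_left₀ (norm_nonneg _) (norm_add_le x y) 2
  have h2 : 0 ≤ (c * ‖x‖ - ‖y‖) ^ 2 / c := by positivity
  have h3 : (c * ‖x‖ - ‖y‖) ^ 2 / c = c * ‖x‖ ^ 2 + 1 / c * ‖y‖ ^ 2 - 2 * (‖x‖ * ‖y‖) := by
    field_simp
    ring
  nlinarith

/-- the row `k`: `(1+c)` times the part of `α`, `(1 + 1/c)` times the part of the moments -/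
theorem qr_le {ν c : ℝ} (hc : 0 < c) (H e : ℕ → ℂ) (k : ℕ) : ‖qr ν H e k‖ ^ 2 / (lk k ^ 2 - 1) ≤
    (1 + c) * ((lk k ^ 2 - 1) * ‖H k‖ ^ 2) + (1 + 1 / c) * (ν ^ 2 / 4 * (‖e k‖ ^ 2 / (lk k ^ 2 - 1))) := by
  have hd := lk_sq k
  rw [div_le_iff₀ hd]
  have e1 : qr ν H e k = ((lk k ^ 2 - 1 : ℝ) : ℂ) * H k + (-(((ν / 2 : ℝ) : ℂ)) * e k) := by
    unfold qr; ring
  rw [e1]
  refine (young _ _ hc).trans (le_of_eq ?_)
  rw [norm_mul, norm_mul, norm_neg, Complex.norm_real, Complex.norm_real, mul_pow, mul_pow, Real.norm_eq_abs,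
    Real.norm_eq_abs, sq_abs, sq_abs]
  have h0 := hd.ne'
  set d := lk k ^ 2 - 1
  field_simp
  ring

theorem qr_summable (ν : ℝ) {H e : ℕ → ℂ} (sH : Summable fun k => (lk k ^ 2 - 1) * ‖H k‖ ^ 2)
    (sE : Summable fun k => ‖e k‖ ^ 2 / (lk k ^ 2 - 1)) :
    Summable fun k => ‖qr ν H e k‖ ^ 2 / (lk k ^ 2 - 1) :=
  Summable.of_nonneg_of_le (qr_nonneg ν H e) (fun k => qr_le one_pos H e k)
    ((sH.mul_left _).add ((sE.mul_left _).mul_left _))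

/-- lower bound of (D2) by the rows `< K` and a bound of the rows `≥ K` -/
theorem D2_lb {ν : ℝ} (hν : 0 < ν) {H e : ℕ → ℂ} (sH : Summable fun k => (lk k ^ 2 - 1) * ‖H k‖ ^ 2)
    (sE : Summable fun k => ‖e k‖ ^ 2 / (lk k ^ 2 - 1)) (K : ℕ) {T : ℝ}
    (hT : ∑' k, ‖qr ν H e (k + K)‖ ^ 2 / (lk (k + K) ^ 2 - 1) ≤ T) :
    -(2 / ν) * (∑ k ∈ Finset.range K, ‖qr ν H e k‖ ^ 2 / (lk k ^ 2 - 1) + T) ≤
      Helper49.Sharp.D2 ν H e (fun _ => 0) := by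
  rw [D2_sq hν, ← (qr_summable ν sH sE).sum_add_tsum_nat_add K]
  have : 0 < 2 / ν := by positivity
  nlinarith

/-- BASE PLUS REST -/
theorem D2_add {ν : ℝ} (hν : 0 < ν) {H e H' e' : ℕ → ℂ} (sH : Summable fun k => (lk k ^ 2 - 1) * ‖H k‖ ^ 2)
    (sE : Summable fun k => ‖e k‖ ^ 2 / (lk k ^ 2 - 1)) (sH' : Summable fun k => (lk k ^ 2 - 1) * ‖H' k‖ ^ 2)
    (sE' : Summable fun k => ‖e' k‖ ^ 2 / (lk k ^ 2 - 1)) :
    Helper49.Sharp.D2 ν (fun k => H k + H' k) (fun k => e k + e' k) (fun _ => 0) =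
      Helper49.Sharp.D2 ν H e (fun _ => 0) + Helper49.Sharp.D2 ν H' e' (fun _ => 0)
      - 4 / ν * ∑' k, (qr ν H e k * (starRingEnd ℂ) (qr ν H' e' k)).re / (lk k ^ 2 - 1) := by
  rw [D2_sq hν, D2_sq hν, D2_sq hν]
  have s1 := qr_summable ν sH sE
  have s2 := qr_summable ν sH' sE'
  have s3 : Summable fun k => (qr ν H e k * (starRingEnd ℂ) (qr ν H' e' k)).re / (lk k ^ 2 - 1) := by
    refine Summable.of_norm_bounded (s1.add s2) fun k => ?_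
    have hd := lk_sq k
    rw [Real.norm_eq_abs, abs_div, abs_of_pos hd, ← add_div]
    refine div_le_div_of_nonneg_right ?_ hd.le
    refine (Complex.abs_re_le_norm _).trans ?_
    rw [norm_mul, Complex.norm_conj]
    nlinarith [sq_nonneg (‖qr ν H e k‖ - ‖qr ν H' e' k‖), sq_nonneg ‖qr ν H e k‖, sq_nonneg ‖qr ν H' e' k‖]
  have e1 : ∀ k, ‖qr ν (fun k => H k + H' k) (fun k => e k + e' k) k‖ ^ 2 / (lk k ^ 2 - 1) =
      ‖qr ν H e k‖ ^ 2 / (lk k ^ 2 - 1) + ‖qr ν H' e' k‖ ^ 2 / (lk k ^ 2 - 1) +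
        2 * ((qr ν H e k * (starRingEnd ℂ) (qr ν H' e' k)).re / (lk k ^ 2 - 1)) := by
    intro k
    have e2 : qr ν (fun k => H k + H' k) (fun k => e k + e' k) k = qr ν H e k + qr ν H' e' k := by
      unfold qr; ring
    rw [e2, ← Complex.normSq_eq_norm_sq, Complex.normSq_add, Complex.normSq_eq_norm_sq, Complex.normSq_eq_norm_sq]
    ring
  simp_rw [e1]
  rw [(s1.add s2).tsum_add (s3.mul_left 2), s1.tsum_add s2, tsum_mul_left]
  ring

/-- the coefficients `H_l` in terms of the real and the imaginary part -/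
theorem Hk_ri {α : ℝ → ℂ} {E : ℝ} (ha : BM α E) (k : ℕ) :
    ((lk k ^ 2 - 1 : ℝ) : ℂ) * Helper49.Sharp.Hk α k =
      Complex.I * (lk k : ℂ) * fc (fun t => ((α t).im : ℂ)) (2 * k + 2) - fc (fun t => ((α t).re : ℂ)) (2 * k + 2) := by
  have hl := lk_ge k
  have bR : BM (fun t => ((α t).re : ℂ)) E := ⟨Complex.measurable_ofReal.comp (Complex.measurable_re.comp ha.m),
    fun t => by rw [Complex.norm_real, Real.norm_eq_abs]; exact (Complex.abs_re_le_norm _).trans (ha.b t)⟩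
  have bI : BM (fun t => ((α t).im : ℂ)) E := ⟨Complex.measurable_ofReal.comp (Complex.measurable_im.comp ha.m),
    fun t => by rw [Complex.norm_real, Real.norm_eq_abs]; exact (Complex.abs_im_le_norm _).trans (ha.b t)⟩
  have e1 : fc α (2 * k + 2) = fc (fun t => ((α t).re : ℂ)) (2 * k + 2)
      + Complex.I * fc (fun t => ((α t).im : ℂ)) (2 * k + 2) := by
    rw [← fc_cmul, ← fc_add bR (bI.cmul _)]
    congr 1
    funext t
    rw [mul_comm, Complex.re_add_im]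
  have e2 : (starRingEnd ℂ) (fc α (-(2 * k + 2))) = fc (fun t => ((α t).re : ℂ)) (2 * k + 2)
      - Complex.I * fc (fun t => ((α t).im : ℂ)) (2 * k + 2) := by
    rw [← fc_conj, ← fc_cmul, ← fc_sub bR (bI.cmul _)]
    congr 1
    funext t
    apply Complex.ext
    · simp
    · simp
  unfold Helper49.Sharp.Hk
  rw [e1, e2]
  have h1 : (lk k : ℂ) + 1 ≠ 0 := by
    have : (lk k : ℂ) + 1 = ((lk k + 1 : ℝ) : ℂ) := by push_cast; ring
    rw [this]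
    exact_mod_cast (by linarith : lk k + 1 ≠ 0)
  have h2 : (lk k : ℂ) - 1 ≠ 0 := by
    have : (lk k : ℂ) - 1 = ((lk k - 1 : ℝ) : ℂ) := by push_cast; ring
    rw [this]
    exact_mod_cast (by linarith : lk k - 1 ≠ 0)
  push_cast
  set R := fc (fun t => ((α t).re : ℂ)) (2 * k + 2)
  set M := fc (fun t => ((α t).im : ℂ)) (2 * k + 2)
  field_simp
  ring

/-- the rows `≥ K` of the part of `α` -/
theorem Hk_row_le {α : ℝ → ℂ} {E : ℝ} (ha : BM α E) {K k : ℕ} (hk : K ≤ k) :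
    (lk k ^ 2 - 1) * ‖Helper49.Sharp.Hk α k‖ ^ 2 ≤
      lk K / (lk K - 1) * ‖fc (fun t => ((α t).im : ℂ)) (2 * k + 2)‖ ^ 2
        + 1 / (lk K - 1) * ‖fc (fun t => ((α t).re : ℂ)) (2 * k + 2)‖ ^ 2 := by
  have hd := lk_sq k
  have e := Hk_ri ha k
  have e1 : (lk k ^ 2 - 1) * ‖Helper49.Sharp.Hk α k‖ ^ 2 =
      ‖((lk k ^ 2 - 1 : ℝ) : ℂ) * Helper49.Sharp.Hk α k‖ ^ 2 / (lk k ^ 2 - 1) := by
    rw [norm_mul, Complex.norm_real, Real.norm_eq_abs, mul_pow, sq_abs]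
    have h0 := hd.ne'
    set d := lk k ^ 2 - 1
    field_simp
  rw [e1, e]
  have e2 : Complex.I * (lk k : ℂ) * fc (fun t => ((α t).im : ℂ)) (2 * k + 2)
      - fc (fun t => ((α t).re : ℂ)) (2 * k + 2) =
      -(fc (fun t => ((α t).re : ℂ)) (2 * k + 2)
        - Complex.I * (lk k : ℂ) * fc (fun t => ((α t).im : ℂ)) (2 * k + 2)) := by ring
  rw [e2, norm_neg]
  have hK := lk_ge K
  refine row_le _ _ (by linarith) ?_
  have : (K : ℝ) ≤ k := by exact_mod_cast hk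
  unfold lk
  linarith

section

variable {g1 g2 h1 h2 : ℝ → ℂ} {φ1 φ2 D1 D2 : ℝ → ℝ} {C a b : ℝ}

theorem WOK.summable (w : WOK φ1 φ2 D1 D2 a b) (b1 : BM g1 C) (b2 : BM g2 C) :
    Summable fun k => ‖eM g1 g2 φ1 φ2 (lk k)‖ ^ 2 / (lk k ^ 2 - 1) := by
  refine summable_of_sum_range_le (fun k => div_nonneg (by positivity) (lk_sq k).le) fun n =>
    eM_tail b1 b2 w 0 (Finset.range n) (fun k _ => Nat.zero_le k)

theorem eM_add (b1 : BM g1 C) (b2 : BM g2 C) (c1 : BM h1 C) (c2 : BM h2 C) (n1 : Measurable φ1)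
    (n2 : Measurable φ2) (l : ℝ) :
    eM (fun t => g1 t + h1 t) (fun t => g2 t + h2 t) φ1 φ2 l = eM g1 g2 φ1 φ2 l + eM h1 h2 φ1 φ2 l := by
  unfold eM
  rw [← mul_add, ← intervalIntegral.integral_add
    (((bm_e b1 n1 l).i _ _).add ((bm_e b2 n2 l).i _ _)) (((bm_e c1 n1 l).i _ _).add ((bm_e c2 n2 l).i _ _))]
  congr 1
  refine intervalIntegral.integral_congr fun θ _ => ?_
  show eD (fun t => g1 t + h1 t) φ1 l θ + eD (fun t => g2 t + h2 t) φ2 l θ =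
    (eD g1 φ1 l θ + eD g2 φ2 l θ) + (eD h1 φ1 l θ + eD h2 φ2 l θ)
  unfold eD
  simp only [add_mul, Complex.add_re, Complex.add_im, Complex.ofReal_add]
  ring

/-- total minus head rows -/
theorem Yk_tail (b1 : BM g1 C) (b2 : BM g2 C) (w : WOK φ1 φ2 D1 D2 a b) (K n : ℕ) :
    ∑ k ∈ Finset.range n, ‖Yk g1 g2 φ1 φ2 (k + K)‖ ^ 2 ≤
      1 / 2 * mY g1 g2 φ1 φ2 D1 D2 - ∑ k ∈ Finset.range K, ‖Yk g1 g2 φ1 φ2 k‖ ^ 2 := by
  have h := Yk_sum b1 b2 w (Finset.range (n + K))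
  rw [add_comm n K, Finset.sum_range_add] at h
  have e : ∑ k ∈ Finset.range n, ‖Yk g1 g2 φ1 φ2 (k + K)‖ ^ 2 = ∑ k ∈ Finset.range n, ‖Yk g1 g2 φ1 φ2 (K + k)‖ ^ 2 :=
    Finset.sum_congr rfl fun k _ => by rw [add_comm]
  rw [e]
  linarith

theorem Xk_tail (b1 : BM g1 C) (b2 : BM g2 C) (w : WOK φ1 φ2 D1 D2 a b) (K n : ℕ) :
    ∑ k ∈ Finset.range n, ‖Xk g1 g2 φ1 φ2 (k + K)‖ ^ 2 ≤
      1 / 2 * mX g1 g2 φ1 φ2 D1 D2 - ∑ k ∈ Finset.range K, ‖Xk g1 g2 φ1 φ2 k‖ ^ 2 := by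
  have h := Xk_sum b1 b2 w (Finset.range (n + K))
  rw [add_comm n K, Finset.sum_range_add] at h
  have e : ∑ k ∈ Finset.range n, ‖Xk g1 g2 φ1 φ2 (k + K)‖ ^ 2 = ∑ k ∈ Finset.range n, ‖Xk g1 g2 φ1 φ2 (K + k)‖ ^ 2 :=
    Finset.sum_congr rfl fun k _ => by rw [add_comm]
  rw [e]
  linarith

/-- the rows `≥ K` of the moments: total minus head rows -/
theorem eM_tail_sub (b1 : BM g1 C) (b2 : BM g2 C) (w : WOK φ1 φ2 D1 D2 a b) (K : ℕ) :
    ∑' k : ℕ, ‖eM g1 g2 φ1 φ2 (lk (k + K))‖ ^ 2 / (lk (k + K) ^ 2 - 1) ≤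
      lk K / (lk K - 1) * (1 / 2 * mY g1 g2 φ1 φ2 D1 D2 - ∑ k ∈ Finset.range K, ‖Yk g1 g2 φ1 φ2 k‖ ^ 2)
      + 1 / (lk K - 1) * (1 / 2 * mX g1 g2 φ1 φ2 D1 D2 - ∑ k ∈ Finset.range K, ‖Xk g1 g2 φ1 φ2 k‖ ^ 2) := by
  have hK := lk_ge K
  have hd : 0 < lk K - 1 := by linarith
  refine Real.tsum_le_of_sum_range_le (fun k => div_nonneg (by positivity) (lk_sq _).le) fun n => ?_
  have e : ∀ k ∈ Finset.range n, ‖eM g1 g2 φ1 φ2 (lk (k + K))‖ ^ 2 / (lk (k + K) ^ 2 - 1) ≤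
      lk K / (lk K - 1) * ‖Yk g1 g2 φ1 φ2 (k + K)‖ ^ 2 + 1 / (lk K - 1) * ‖Xk g1 g2 φ1 φ2 (k + K)‖ ^ 2 := by
    intro k _
    rw [eM_XY b1 b2 w.n1 w.n2]
    refine row_le _ _ (by linarith) ?_
    unfold lk
    push_cast
    linarith [(Nat.cast_nonneg k : (0 : ℝ) ≤ k)]
  refine (Finset.sum_le_sum e).trans ?_
  rw [Finset.sum_add_distrib, ← Finset.mul_sum, ← Finset.mul_sum]
  have y := mul_le_mul_of_nonneg_left (Yk_tail b1 b2 w K n) (by positivity : 0 ≤ lk K / (lk K - 1))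
  have x := mul_le_mul_of_nonneg_left (Xk_tail b1 b2 w K n) (by positivity : 0 ≤ 1 / (lk K - 1))
  linarith

theorem Hk_summable {α : ℝ → ℂ} {E : ℝ} (ha : BM α E) :
    Summable fun k => (lk k ^ 2 - 1) * ‖Helper49.Sharp.Hk α k‖ ^ 2 :=
  (Hl_summable ha).congr fun k => by rw [Hk_eq]

/-- the rows `≥ K` of (D2): split between `α` and the moments -/
theorem qr_tail {ν c : ℝ} (hc : 0 < c) {H e : ℕ → ℂ}
    (sH : Summable fun k => (lk k ^ 2 - 1) * ‖H k‖ ^ 2) (sE : Summable fun k => ‖e k‖ ^ 2 / (lk k ^ 2 - 1)) (K : ℕ) :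
    ∑' k, ‖qr ν H e (k + K)‖ ^ 2 / (lk (k + K) ^ 2 - 1) ≤
      (1 + c) * ∑' k, (lk (k + K) ^ 2 - 1) * ‖H (k + K)‖ ^ 2
      + (1 + 1 / c) * (ν ^ 2 / 4 * ∑' k, ‖e (k + K)‖ ^ 2 / (lk (k + K) ^ 2 - 1)) := by
  have s1 := (summable_nat_add_iff K).2 sH
  have s2 := (summable_nat_add_iff K).2 sE
  have s3 := (summable_nat_add_iff K).2 (qr_summable ν sH sE)
  rw [← tsum_mul_left, ← tsum_mul_left, ← tsum_mul_left,
    ← (s1.mul_left (1 + c)).tsum_add ((s2.mul_left (ν ^ 2 / 4)).mul_left (1 + 1 / c))]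
  exact s3.tsum_le_tsum (fun k => qr_le hc H e (k + K)) ((s1.mul_left _).add ((s2.mul_left _).mul_left _))

/-- **(D2) BY THE ROWS `< K` AND MEANS** -/
theorem D2_tail {ν c : ℝ} (hν : 0 < ν) (hc : 0 < c) {α : ℝ → ℂ} {E : ℝ} (ha : BM α E) (b1 : BM g1 C) (b2 : BM g2 C)
    (w : WOK φ1 φ2 D1 D2 a b) (K : ℕ) :
    -(2 / ν) * ∑ k ∈ Finset.range K,
        ‖qr ν (Helper49.Sharp.Hk α) (fun k => eM g1 g2 φ1 φ2 (lk k)) k‖ ^ 2 / (lk k ^ 2 - 1)
      - (1 + c) * (2 / ν) * ∑' k, (lk (k + K) ^ 2 - 1) * ‖Helper49.Sharp.Hk α (k + K)‖ ^ 2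
      - (1 + 1 / c) * (ν / 2) *
        (lk K / (lk K - 1) * (1 / 2 * mY g1 g2 φ1 φ2 D1 D2 - ∑ k ∈ Finset.range K, ‖Yk g1 g2 φ1 φ2 k‖ ^ 2)
        + 1 / (lk K - 1) * (1 / 2 * mX g1 g2 φ1 φ2 D1 D2 - ∑ k ∈ Finset.range K, ‖Xk g1 g2 φ1 φ2 k‖ ^ 2))
      ≤ Helper49.Sharp.D2 ν (Helper49.Sharp.Hk α) (fun k => eM g1 g2 φ1 φ2 (lk k)) (fun _ => 0) := by
  have sH := Hk_summable ha
  have sE := w.summable b1 b2
  have h1 := D2_lb hν sH sE K (qr_tail (ν := ν) hc sH sE K)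
  have h2 := eM_tail_sub b1 b2 w K
  refine le_trans ?_ h1
  have hf : 0 ≤ (1 + 1 / c) * (ν / 2) := by positivity
  have h3 := mul_le_mul_of_nonneg_left h2 hf
  have e : (2 / ν) * ((1 + 1 / c) * (ν ^ 2 / 4 *
      ∑' k, ‖eM g1 g2 φ1 φ2 (lk (k + K))‖ ^ 2 / (lk (k + K) ^ 2 - 1))) = (1 + 1 / c) * (ν / 2) *
      ∑' k, ‖eM g1 g2 φ1 φ2 (lk (k + K))‖ ^ 2 / (lk (k + K) ^ 2 - 1) := by
    field_simp
    ring
  have e3 : ∀ S SH X Y : ℝ, X = Y →
      -(2 / ν) * (S + ((1 + c) * SH + X)) = -(2 / ν) * S - (1 + c) * (2 / ν) * SH - (2 / ν) * Y := by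
    intro S SH X Y h; rw [h]; ring
  rw [e3 _ _ _ _ rfl, e]
  linarith

/-- the moments of a sum of two families, rows `≥ K` -/
theorem eM_split {ε : ℝ} (hε : 0 < ε) (b1 : BM g1 C) (b2 : BM g2 C) (c1 : BM h1 C) (c2 : BM h2 C)
    (w : WOK φ1 φ2 D1 D2 a b) (K : ℕ) :
    ∑' k : ℕ, ‖eM (fun t => g1 t + h1 t) (fun t => g2 t + h2 t) φ1 φ2 (lk (k + K))‖ ^ 2 / (lk (k + K) ^ 2 - 1) ≤
      (1 + ε) * ∑' k : ℕ, ‖eM g1 g2 φ1 φ2 (lk (k + K))‖ ^ 2 / (lk (k + K) ^ 2 - 1)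
      + (1 + 1 / ε) * (1 / 2 * (lk K / (lk K - 1) * mY h1 h2 φ1 φ2 D1 D2 + 1 / (lk K - 1) * mX h1 h2 φ1 φ2 D1 D2)) := by
  have s1 := (summable_nat_add_iff K).2 (w.summable b1 b2)
  have s2 := (summable_nat_add_iff K).2 (w.summable c1 c2)
  have t2 := eM_tail_tsum c1 c2 w K
  have hf : 0 ≤ 1 + 1 / ε := by positivity
  have t3 := mul_le_mul_of_nonneg_left t2 hf
  refine le_trans ?_ (add_le_add le_rfl t3)
  rw [← tsum_mul_left, ← tsum_mul_left, ← (s1.mul_left (1 + ε)).tsum_add (s2.mul_left (1 + 1 / ε))]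
  refine Summable.tsum_le_tsum (fun k => ?_) ?_ ((s1.mul_left _).add (s2.mul_left _))
  · have hd := lk_sq (k + K)
    rw [eM_add b1 b2 c1 c2 w.n1 w.n2, ← mul_div_assoc, ← mul_div_assoc, ← add_div]
    exact div_le_div_of_nonneg_right (young _ _ hε) hd.le
  · exact (summable_nat_add_iff K).2 (w.summable (C := C + C) (b1.add c1) (b2.add c2))

end

end Pool.Agent.Helper17.RC
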